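import Pool.Agent.T6.H14.GL.Dec
import Pool.Agent.Y102.SP.Defs

set_option autoImplicit false
set_option linter.unusedSectionVars false

/-!
# Isomorphisms of orthogonal Lie algebras: Clifford systems
-/

open Module Matrix

noncomputable section

namespace Pool.Agent.T6.H14.GL

open Pool.Agent.Y102.SP

variable {U : Type} [AddCommGroup U] [Module ℂ U] {r : ℕ} {E : Fin r → Module.End ℂ U}

theorem two_mul_E (hE : CE E) (i j : Fin r) :
    E i * E j + E j * E i = (if i = j then (2 : ℂ) else 0) • 1 := by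
  by_cases h : i = j
  · subst h
    rw [if_pos rfl, hE.sq, two_smul]
  · rw [if_neg h, zero_smul, hE.anti i j h, neg_add_cancel]

/-- the vectors -/
def ev (E : Fin r → Module.End ℂ U) (u : Fin r → ℂ) : Module.End ℂ U := ∑ i, u i • E i

theorem ev_anti (hE : CE E) (u w : Fin r → ℂ) :
    ev E u * ev E w + ev E w * ev E u = (2 * (u ⬝ᵥ w)) • 1 := by
  unfold ev
  rw [Finset.sum_mul_sum, Finset.sum_mul_sum, Finset.sum_comm (s := Finset.univ)
    (f := fun i j => (w i • E i) * (u j • E j)), ← Finset.sum_add_distrib]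
  have h1 : ∀ i, (∑ j, (u i • E i) * (w j • E j)) + ∑ j, (w j • E j) * (u i • E i) =
      (2 * (u i * w i)) • 1 := by
    intro i
    rw [← Finset.sum_add_distrib]
    have h2 : ∀ j, (u i • E i) * (w j • E j) + (w j • E j) * (u i • E i) =
        if i = j then (2 * (u i * w j)) • 1 else 0 := by
      intro j
      rw [smul_mul_smul_comm, smul_mul_smul_comm, mul_comm (w j), ← smul_add, two_mul_E hE,
        smul_smul]
      by_cases h : i = j
      · rw [if_pos h, if_pos h, mul_comm]
      · rw [if_neg h, if_neg h, mul_zero, zero_smul]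
    rw [Finset.sum_congr rfl fun j _ => h2 j, Finset.sum_ite_eq, if_pos (Finset.mem_univ _)]
  rw [Finset.sum_congr rfl fun i _ => h1 i, ← Finset.sum_smul, ← Finset.mul_sum]
  rfl

/-- the spin representation -/
def rho (E : Fin r → Module.End ℂ U) : MM r →ₗ[ℂ] Module.End ℂ U where
  toFun X := (4⁻¹ : ℂ) • ∑ i, ∑ j, X i j • (E i * E j)
  map_add' X Y := by
    rw [← smul_add, ← Finset.sum_add_distrib]
    congr 1
    refine Finset.sum_congr rfl fun i _ => ?_
    rw [← Finset.sum_add_distrib]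
    exact Finset.sum_congr rfl fun j _ => by rw [Matrix.add_apply, add_smul]
  map_smul' c X := by
    rw [RingHom.id_apply, smul_comm c (4⁻¹ : ℂ)]
    congr 1
    rw [Finset.smul_sum]
    refine Finset.sum_congr rfl fun i _ => ?_
    rw [Finset.smul_sum]
    exact Finset.sum_congr rfl fun j _ => by rw [Matrix.smul_apply, smul_smul, smul_eq_mul]

theorem rho_apply (X : MM r) : rho E X = (4⁻¹ : ℂ) • ∑ i, ∑ j, X i j • (E i * E j) := rfl

theorem rho_vec (hE : CE E) {X : MM r} (hX : X ∈ so r) (i : Fin r) :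
    rho E X * E i - E i * rho E X = ∑ k, X k i • E k := by
  have h1 : ∀ k l, E k * E l * E i - E i * (E k * E l) =
      (if l = i then (2 : ℂ) else 0) • E k - (if k = i then (2 : ℂ) else 0) • E l := by
    intro k l
    have e1 := two_mul_E hE l i
    have e2 := two_mul_E hE k i
    calc E k * E l * E i - E i * (E k * E l) = E k * (E l * E i + E i * E l) -
        (E k * E i + E i * E k) * E l := by
          simp only [mul_add, add_mul, mul_assoc]
          abel
      _ = _ := by rw [e1, e2, mul_smul_comm, mul_one, smul_mul_assoc, one_mul]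
  have h2 : rho E X * E i - E i * rho E X = (4⁻¹ : ℂ) • ∑ k, ∑ l, X k l •
      ((if l = i then (2 : ℂ) else 0) • E k - (if k = i then (2 : ℂ) else 0) • E l) := by
    rw [rho_apply, smul_mul_assoc, mul_smul_comm, ← smul_sub, Finset.sum_mul, Finset.mul_sum,
      ← Finset.sum_sub_distrib]
    congr 1
    refine Finset.sum_congr rfl fun k _ => ?_
    rw [Finset.sum_mul, Finset.mul_sum, ← Finset.sum_sub_distrib]
    refine Finset.sum_congr rfl fun l _ => ?_
    rw [smul_mul_assoc, mul_smul_comm, ← smul_sub, h1]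
  have h3 : ∑ k, ∑ l, X k l • ((if l = i then (2 : ℂ) else 0) • E k -
      (if k = i then (2 : ℂ) else 0) • E l) = (4 : ℂ) • ∑ k, X k i • E k := by
    have e1 : ∀ k l, X k l • ((if l = i then (2 : ℂ) else 0) • E k -
        (if k = i then (2 : ℂ) else 0) • E l) =
        (if l = i then (2 * X k l) • E k else 0) - (if k = i then (2 * X k l) • E l else 0) := by
      intro k l
      rw [smul_sub, smul_smul, smul_smul]
      congr 1
      · split_ifs
        · rw [mul_comm]
        · rw [mul_zero, zero_smul]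
      · split_ifs
        · rw [mul_comm]
        · rw [mul_zero, zero_smul]
    simp only [e1, Finset.sum_sub_distrib, Finset.sum_ite_eq', Finset.mem_univ, if_true]
    rw [Finset.sum_comm]
    simp only [Finset.sum_ite_eq', Finset.mem_univ, if_true]
    rw [← Finset.sum_sub_distrib, Finset.smul_sum]
    refine Finset.sum_congr rfl fun k _ => ?_
    rw [so_entry hX i k, smul_smul, ← sub_smul]
    congr 1
    ring
  rw [h2, h3, smul_smul, inv_mul_cancel₀ (by norm_num), one_smul]

theorem rho_br (hE : CE E) {X Y : MM r} (hX : X ∈ so r) (_hY : Y ∈ so r) :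
    rho E X * rho E Y - rho E Y * rho E X = rho E (X * Y - Y * X) := by
  have h1 : ∀ i j, rho E X * (E i * E j) - E i * E j * rho E X =
      (∑ k, X k i • (E k * E j)) + ∑ k, X k j • (E i * E k) := by
    intro i j
    have e1 := rho_vec hE hX i
    have e2 := rho_vec hE hX j
    calc rho E X * (E i * E j) - E i * E j * rho E X =
        (rho E X * E i - E i * rho E X) * E j + E i * (rho E X * E j - E j * rho E X) := by
          simp only [mul_sub, sub_mul, mul_assoc]
          abel
      _ = _ := by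
        rw [e1, e2, Finset.sum_mul, Finset.mul_sum]
        simp only [smul_mul_assoc, mul_smul_comm]
  have h2 : rho E X * rho E Y - rho E Y * rho E X = (4⁻¹ : ℂ) • ∑ i, ∑ j, Y i j •
      ((∑ k, X k i • (E k * E j)) + ∑ k, X k j • (E i * E k)) := by
    conv_lhs => rw [rho_apply Y]
    rw [smul_mul_assoc, mul_smul_comm, ← smul_sub, Finset.sum_mul, Finset.mul_sum,
      ← Finset.sum_sub_distrib]
    congr 1
    refine Finset.sum_congr rfl fun i _ => ?_
    rw [Finset.sum_mul, Finset.mul_sum, ← Finset.sum_sub_distrib]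
    refine Finset.sum_congr rfl fun j _ => ?_
    rw [smul_mul_assoc, mul_smul_comm, ← smul_sub, h1]
  rw [h2, rho_apply]
  congr 1
  have h3 : ∀ i j, Y i j • ((∑ k, X k i • (E k * E j)) + ∑ k, X k j • (E i * E k)) =
      (∑ k, (X k i * Y i j) • (E k * E j)) + ∑ k, (Y i j * X k j) • (E i * E k) := by
    intro i j
    rw [smul_add, Finset.smul_sum, Finset.smul_sum]
    congr 1
    · exact Finset.sum_congr rfl fun k _ => by rw [smul_smul, mul_comm]
    · exact Finset.sum_congr rfl fun k _ => by rw [smul_smul]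
  have h4 : ∑ i, ∑ j, ∑ k, (X k i * Y i j) • (E k * E j) =
      ∑ i, ∑ j, (X * Y) i j • (E i * E j) := by
    calc ∑ i, ∑ j, ∑ k, (X k i * Y i j) • (E k * E j) =
        ∑ i, ∑ k, ∑ j, (X k i * Y i j) • (E k * E j) :=
          Finset.sum_congr rfl fun i _ => Finset.sum_comm
      _ = ∑ k, ∑ i, ∑ j, (X k i * Y i j) • (E k * E j) := Finset.sum_comm
      _ = ∑ k, ∑ j, ∑ i, (X k i * Y i j) • (E k * E j) :=
          Finset.sum_congr rfl fun i _ => Finset.sum_comm
      _ = _ := by
        refine Finset.sum_congr rfl fun k _ => Finset.sum_congr rfl fun j _ => ?_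
        rw [Matrix.mul_apply, Finset.sum_smul]
  have h5 : ∑ i, ∑ j, ∑ k, (Y i j * X k j) • (E i * E k) =
      ∑ i, ∑ j, (-(Y * X)) i j • (E i * E j) := by
    calc ∑ i, ∑ j, ∑ k, (Y i j * X k j) • (E i * E k) =
        ∑ i, ∑ k, ∑ j, (Y i j * X k j) • (E i * E k) :=
          Finset.sum_congr rfl fun i _ => Finset.sum_comm
      _ = _ := by
        refine Finset.sum_congr rfl fun i _ => Finset.sum_congr rfl fun k _ => ?_
        rw [Matrix.neg_apply, Matrix.mul_apply, neg_smul, Finset.sum_smul,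
          ← Finset.sum_neg_distrib]
        refine Finset.sum_congr rfl fun j _ => ?_
        rw [so_entry hX k j, mul_neg, neg_smul]
  simp only [h3, Finset.sum_add_distrib]
  rw [h4, h5, ← Finset.sum_add_distrib]
  refine Finset.sum_congr rfl fun i _ => ?_
  rw [← Finset.sum_add_distrib]
  refine Finset.sum_congr rfl fun j _ => ?_
  rw [← add_smul]
  congr 1

theorem rho_mem {X : MM r} (hX : X ∈ so r) : rho E X ∈ soE E := by
  rw [rho_apply]
  refine Submodule.smul_mem _ _ (Submodule.sum_mem _ fun i _ => Submodule.sum_mem _ fun j _ => ?_)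
  by_cases h : i = j
  · subst h
    have h1 : X i i = 0 := by
      have h2 := so_entry hX i i
      have h3 : (2 : ℂ) * X i i = 0 := by linear_combination h2
      exact (mul_eq_zero.1 h3).resolve_left two_ne_zero
    rw [h1, zero_smul]
    exact Submodule.zero_mem _
  · exact Submodule.smul_mem _ _ (Submodule.subset_span ⟨i, j, h, rfl⟩)

theorem rho_vmv (u w : Fin r → ℂ) :
    rho E (vecMulVec u w) = (4⁻¹ : ℂ) • (ev E u * ev E w) := by
  rw [rho_apply]
  congr 1
  unfold ev
  rw [Finset.sum_mul_sum]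
  refine Finset.sum_congr rfl fun i _ => Finset.sum_congr rfl fun j _ => ?_
  rw [vecMulVec_apply, smul_mul_smul_comm]

theorem rho_wd (u w : Fin r → ℂ) :
    rho E (wd u w) = (4⁻¹ : ℂ) • (ev E u * ev E w - ev E w * ev E u) := by
  unfold wd
  rw [map_sub, rho_vmv, rho_vmv, ← smul_sub]

theorem ev_single (a : Fin r) : ev E (Pi.single a 1) = E a := by
  unfold ev
  rw [Finset.sum_eq_single a]
  · rw [Pi.single_eq_same, one_smul]
  · intro b _ hb
    rw [Pi.single_eq_of_ne hb, zero_smul]
  · intro h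
    exact absurd (Finset.mem_univ _) h

theorem ev_add (u w : Fin r → ℂ) : ev E (u + w) = ev E u + ev E w := by
  unfold ev
  rw [← Finset.sum_add_distrib]
  exact Finset.sum_congr rfl fun i _ => by rw [Pi.add_apply, add_smul]

theorem rho_wd_single (hE : CE E) {a b : Fin r} (h : a ≠ b) :
    (2 : ℂ) • rho E (wd (Pi.single a 1) (Pi.single b 1)) = E a * E b := by
  rw [rho_wd, ev_single, ev_single, hE.anti b a h.symm, sub_neg_eq_add, ← two_smul ℂ, smul_smul,
    smul_smul]
  norm_num

theorem rho_wd_add (hE : CE E) {a b c : Fin r} (h : a ≠ b) (h' : a ≠ c) :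
    (2 : ℂ) • rho E (wd (Pi.single a 1) (Pi.single b 1 + Pi.single c 1)) =
      E a * E b + E a * E c := by
  rw [rho_wd, ev_add, ev_single, ev_single, ev_single, mul_add, add_mul, hE.anti b a h.symm,
    hE.anti c a h'.symm, smul_smul]
  have h1 : E a * E b + E a * E c - (-(E a * E b) + -(E a * E c)) =
      (2 : ℂ) • (E a * E b + E a * E c) := by
    rw [two_smul]
    abel
  rw [h1, smul_smul]
  norm_num

theorem rho_surj (hE : CE E) {x : Module.End ℂ U} (hx : x ∈ soE E) : ∃ X ∈ so r, rho E X = x := by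
  induction hx using Submodule.span_induction with
  | mem x hx =>
    obtain ⟨i, j, hij, rfl⟩ := hx
    refine ⟨(2 : ℂ) • wd (Pi.single i 1) (Pi.single j 1), (so r).smul_mem _ (wd_mem _ _), ?_⟩
    rw [map_smul, rho_wd_single hE hij]
  | zero => exact ⟨0, (so r).zero_mem, map_zero _⟩
  | add x y _ _ hx hy =>
    obtain ⟨X, hX, rfl⟩ := hx
    obtain ⟨Y, hY, rfl⟩ := hy
    exact ⟨X + Y, (so r).add_mem hX hY, map_add _ _ _⟩
  | smul c x _ hx =>
    obtain ⟨X, hX, rfl⟩ := hx
    exact ⟨c • X, (so r).smul_mem c hX, map_smul _ _ _⟩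

theorem rho_inj [Nontrivial U] (hE : CE E) {X : MM r} (hX : X ∈ so r) (h : rho E X = 0) :
    X = 0 := by
  have h1 : ∀ i, ev E (fun k => X k i) = 0 := by
    intro i
    have h2 := rho_vec hE hX i
    rw [h, zero_mul, mul_zero, sub_zero] at h2
    exact h2.symm
  ext j i
  have h2 := ev_anti hE (Pi.single j 1) (fun k => X k i)
  rw [h1, mul_zero, zero_mul, add_zero, single_dotProduct, one_mul] at h2
  have h3 := (smul_eq_zero.1 h2.symm).resolve_right one_ne_zero
  exact (mul_eq_zero.1 h3).resolve_left two_ne_zero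

/-- **The squares of decomposable elements.** -/
theorem rho_sq (hE : CE E) {Y : MM r}
    (h : ∀ a b c d, Y a b * Y c d - Y a c * Y b d + Y a d * Y b c = 0) :
    rho E Y * rho E Y = ((Y * Y).trace / 8) • 1 := by
  by_cases h0 : Y = 0
  · rw [h0, map_zero, mul_zero, Matrix.mul_zero, Matrix.trace_zero, zero_div, zero_smul]
  obtain ⟨a, b, hab⟩ : ∃ a b, Y a b ≠ 0 := by
    by_contra hcon
    push Not at hcon
    exact h0 (by ext a b; exact hcon a b)
  obtain ⟨u, hu⟩ : ∃ u : Fin r → ℂ, u = fun k => Y a k := ⟨_, rfl⟩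
  obtain ⟨w, hw⟩ : ∃ w : Fin r → ℂ, w = fun k => Y b k := ⟨_, rfl⟩
  have hY2 : Y a b • Y = wd u w := by
    ext k l
    have h1 := h a b k l
    rw [Matrix.smul_apply, smul_eq_mul]
    unfold wd
    rw [Matrix.sub_apply, vecMulVec_apply, vecMulVec_apply, hu, hw]
    linear_combination h1
  have ht : Y a b * Y a b * (Y * Y).trace = -2 * ((u ⬝ᵥ u) * (w ⬝ᵥ w)) +
      2 * ((u ⬝ᵥ w) * (u ⬝ᵥ w)) := by
    have h1 : Y a b * Y a b * (Y * Y).trace = ((Y a b • Y) * (Y a b • Y)).trace := by
      rw [Matrix.smul_mul, Matrix.mul_smul, Matrix.trace_smul, Matrix.trace_smul, smul_eq_mul,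
        smul_eq_mul, mul_assoc]
    rw [h1, hY2]
    unfold wd
    rw [Matrix.sub_mul, Matrix.mul_sub, Matrix.mul_sub, vmv_mul, vmv_mul, vmv_mul, vmv_mul]
    simp only [Matrix.trace_sub, Matrix.trace_smul, Matrix.trace_vecMulVec, smul_eq_mul,
      dotProduct_comm w u]
    ring
  have hsq : (Y a b * Y a b) • (rho E Y * rho E Y) =
      (4⁻¹ * ((u ⬝ᵥ w) * (u ⬝ᵥ w) - (u ⬝ᵥ u) * (w ⬝ᵥ w))) • 1 := by
    have h1 : (Y a b * Y a b) • (rho E Y * rho E Y) = rho E (wd u w) * rho E (wd u w) := by
      rw [← hY2, map_smul, smul_mul_smul_comm]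
    rw [h1, rho_wd]
    have e1 := ev_anti hE u w
    have e2 := ev_anti hE u u
    have e3 := ev_anti hE w w
    obtain ⟨P, hP⟩ : ∃ P, P = ev E u := ⟨_, rfl⟩
    obtain ⟨Q, hQ⟩ : ∃ Q, Q = ev E w := ⟨_, rfl⟩
    rw [← hP, ← hQ] at e1 ⊢
    rw [← hP] at e2
    rw [← hQ] at e3
    have f2 : P * P = (u ⬝ᵥ u) • 1 := by
      rw [← two_smul ℂ, mul_smul] at e2
      exact smul_right_injective _ two_ne_zero e2
    have f3 : Q * Q = (w ⬝ᵥ w) • 1 := by
      rw [← two_smul ℂ, mul_smul] at e3
      exact smul_right_injective _ two_ne_zero e3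
    have f1 : Q * P = (2 * (u ⬝ᵥ w)) • 1 - P * Q := by rw [← e1]; abel
    have f4 : P * Q * (P * Q) = (2 * (u ⬝ᵥ w)) • (P * Q) - ((u ⬝ᵥ u) * (w ⬝ᵥ w)) • 1 := by
      calc P * Q * (P * Q) = P * (Q * P) * Q := by simp only [mul_assoc]
        _ = (2 * (u ⬝ᵥ w)) • (P * Q) - P * P * (Q * Q) := by
          rw [f1, mul_sub, sub_mul, mul_smul_comm, mul_one, smul_mul_assoc]
          simp only [mul_assoc]
        _ = _ := by rw [f2, f3, smul_mul_smul_comm, one_mul]
    have f5 : P * Q - Q * P = (2 : ℂ) • (P * Q) - (2 * (u ⬝ᵥ w)) • 1 := by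
      rw [f1, two_smul]
      abel
    rw [f5, smul_mul_smul_comm, sub_mul, mul_sub, mul_sub, smul_mul_smul_comm,
      smul_mul_smul_comm, smul_mul_smul_comm, smul_mul_smul_comm, f4, mul_one, one_mul, one_mul]
    module
  have hab2 : Y a b * Y a b ≠ 0 := mul_ne_zero hab hab
  have h1 : (Y a b * Y a b) • (rho E Y * rho E Y) =
      (Y a b * Y a b) • (((Y * Y).trace / 8) • (1 : Module.End ℂ U)) := by
    rw [hsq, smul_smul]
    congr 1
    linear_combination (-1 / 8 : ℂ) * ht
  exact smul_right_injective _ hab2 h1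

end Pool.Agent.T6.H14.GL
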