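import Pool.Agent.T6.H14.GL.Lnk
import Pool.Agent.Y102.SP.ColMain

set_option autoImplicit false
set_option linter.unusedSectionVars false

/-!
# Isomorphisms of Lie algebras of spin type
-/

open Module Matrix

noncomputable section

namespace Pool.Agent.T6.H14.GL

open Pool.Agent.Y102.SP

variable {U U' : Type} [AddCommGroup U] [Module ℂ U] [FiniteDimensional ℂ U] [Nontrivial U]
  [AddCommGroup U'] [Module ℂ U'] [FiniteDimensional ℂ U'] [Nontrivial U']
  {N N' k k' : ℕ} {E : Fin N → Module.End ℂ U} {F : Fin N' → Module.End ℂ U'}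
  {c : Fin N → Fin k} {c' : Fin N' → Fin k'}

/-- the number of the generators of a colour -/
def nc (c : Fin N → Fin k) (s : Fin k) : ℕ := (Finset.univ.filter fun j => c j = s).card

/-- The subfamily of one colour. -/
theorem sub_fam (hE : CE E) (s : Fin k) :
    ∃ (E' : Fin (nc c s) → Module.End ℂ U) (f : Fin (nc c s) → Fin N), CE E' ∧
      soE E' = soS E c s ∧ (∀ a, E' a = E (f a)) ∧ (∀ a b, f a = f b → a = b) ∧
      (∀ a, c (f a) = s) ∧ ∀ i, c i = s → ∃ a, f a = i := by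
  classical
  obtain ⟨S, hS⟩ : ∃ S : Finset (Fin N), S = Finset.univ.filter fun j => c j = s := ⟨_, rfl⟩
  have hcard : nc c s = S.card := by rw [hS]; rfl
  have hmem : ∀ i, i ∈ S ↔ c i = s := fun i => by rw [hS, Finset.mem_filter]; simp
  rw [hcard]
  let e := S.equivFin
  have hinj : ∀ a b : Fin S.card, (e.symm a).1 = (e.symm b).1 → a = b := fun a b h =>
    e.symm.injective (Subtype.ext h)
  refine ⟨fun a => E (e.symm a).1, fun a => (e.symm a).1, ⟨fun a => hE.sq _, fun a b hab =>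
    hE.anti _ _ fun h => hab (hinj a b h)⟩, ?_, fun a => rfl, hinj, fun a => (hmem _).1 (e.symm a).2,
    fun i hi => ⟨e ⟨i, (hmem i).2 hi⟩, by
      beta_reduce
      rw [Equiv.symm_apply_apply]⟩⟩
  refine le_antisymm (Submodule.span_mono ?_) (Submodule.span_mono ?_)
  · rintro _ ⟨a, b, hab, rfl⟩
    exact ⟨_, _, fun h => hab (hinj a b h), (hmem _).1 (e.symm a).2, (hmem _).1 (e.symm b).2, rfl⟩
  · rintro _ ⟨i, j, hij, hi, hj, rfl⟩
    refine ⟨e ⟨i, (hmem i).2 hi⟩, e ⟨j, (hmem j).2 hj⟩, ?_, ?_⟩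
    · intro h
      exact hij (congrArg Subtype.val (e.injective h))
    · simp

/-- an isomorphism of the Lie algebras -/
structure IsoC (E : Fin N → Module.End ℂ U) (c : Fin N → Fin k) (F : Fin N' → Module.End ℂ U')
    (c' : Fin N' → Fin k') (Φ : Module.End ℂ U' →ₗ[ℂ] Module.End ℂ U) : Prop where
  mem : ∀ x ∈ soC F c', Φ x ∈ soC E c
  br : ∀ x ∈ soC F c', ∀ y ∈ soC F c', Φ (x * y - y * x) = Φ x * Φ y - Φ y * Φ x
  inj : ∀ x ∈ soC F c', Φ x = 0 → x = 0
  surj : ∀ y ∈ soC E c, ∃ x ∈ soC F c', Φ x = y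

variable {Φ : Module.End ℂ U' →ₗ[ℂ] Module.End ℂ U}

/-- brackets with elements of one colour -/
theorem br_part (hE : CE E) {s : Fin k} {x y : Module.End ℂ U} (hx : x ∈ soC E c)
    (hy : y ∈ soS E c s) : x * y - y * x = pS E c s x * y - y * pS E c s x :=
  Link_part hE hy hx

theorem soS_ideal (hE : CE E) {s : Fin k} {x y : Module.End ℂ U} (hx : x ∈ soC E c)
    (hy : y ∈ soS E c s) : x * y - y * x ∈ soS E c s := by
  rw [br_part hE hx hy]
  exact soS_br hE (pS_mem hE hx) hy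

theorem soS_ne {s : Fin k} (hs : 6 ≤ nc c s) :
    ∃ i j, i ≠ j ∧ c i = s ∧ c j = s := by
  obtain ⟨i, hi, j, hj, hij⟩ := Finset.one_lt_card.1 (lt_of_lt_of_le (by norm_num : 1 < 6) hs)
  exact ⟨i, j, hij, (Finset.mem_filter.1 hi).2, (Finset.mem_filter.1 hj).2⟩

/-- the centre is zero -/
theorem centre_zero (hE : CE E) {s : Fin k} (hs : 6 ≤ nc c s) {x : Module.End ℂ U}
    (hx : x ∈ soS E c s) (h : ∀ y ∈ soS E c s, y * x - x * y = 0) : x = 0 := by
  let Z : Submodule ℂ (Module.End ℂ U) :=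
    { carrier := {x | x ∈ soS E c s ∧ ∀ y ∈ soS E c s, y * x - x * y = 0}
      zero_mem' := ⟨zero_mem _, fun y _ => by rw [mul_zero, zero_mul, sub_zero]⟩
      add_mem' := fun {a b} ha hb => ⟨add_mem ha.1 hb.1, fun y hy => by
        rw [mul_add, add_mul, add_sub_add_comm, ha.2 y hy, hb.2 y hy, add_zero]⟩
      smul_mem' := fun r a ha => ⟨Submodule.smul_mem _ r ha.1, fun y hy => by
        rw [mul_smul_comm, smul_mul_assoc, ← smul_sub, ha.2 y hy, smul_zero]⟩ }
  have hmem : ∀ x, x ∈ Z ↔ x ∈ soS E c s ∧ ∀ y ∈ soS E c s, y * x - x * y = 0 := fun x => Iff.rfl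
  rcases ColMain_simple hE hs Z (fun x hx => hx.1) (fun y hy x hx => by
    rw [hx.2 y hy]
    exact zero_mem _) with h0 | h0
  · have h1 : x ∈ Z := (hmem x).2 ⟨hx, h⟩
    rw [h0] at h1
    exact (Submodule.mem_bot ℂ).1 h1
  · exfalso
    obtain ⟨i, j, hij, hi, hj⟩ := soS_ne hs
    have h1 : E i * E j ∈ soS E c s := Submodule.subset_span ⟨i, j, hij, hi, hj, rfl⟩
    have h2 := ColMain_perfect hE hs h1
    have h3 : Submodule.span ℂ {z | ∃ x ∈ soS E c s, ∃ y ∈ soS E c s, z = x * y - y * x} ≤ ⊥ := by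
      refine Submodule.span_le.2 ?_
      rintro _ ⟨x, hx, y, hy, rfl⟩
      rw [← h0] at hy
      exact (Submodule.mem_bot ℂ).2 (hy.2 x hx)
    exact ColMain_ne hE hij ((Submodule.mem_bot ℂ).1 (h3 h2))

/-- **Colours go to colours.** -/
theorem col_match (hE : CE E) (hF : CE F) (h : IsoC E c F c' Φ) (hc : ∀ i, 6 ≤ nc c (c i))
    {t : Fin k'} (ht : 6 ≤ nc c' t) :
    ∃ i, (∀ x ∈ soS F c' t, Φ x ∈ soS E c (c i)) ∧
      ∀ y ∈ soS E c (c i), ∃ x ∈ soS F c' t, Φ x = y := by
  obtain ⟨a, b, hab, ha, hb⟩ := soS_ne ht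
  have hab2 : F a * F b ∈ soS F c' t := Submodule.subset_span ⟨a, b, hab, ha, hb, rfl⟩
  have hne : Φ (F a * F b) ≠ 0 := fun h0 =>
    ColMain_ne hF hab (h.inj _ (soS_le t hab2) h0)
  have hsum := pS_sum hE (h.mem _ (soS_le t hab2))
  obtain ⟨s, hs⟩ : ∃ s, pS E c s (Φ (F a * F b)) ≠ 0 := by
    by_contra hcon
    push Not at hcon
    apply hne
    rw [hsum]
    exact Finset.sum_eq_zero fun s _ => hcon s
  obtain ⟨i, rfl⟩ : ∃ i, c i = s := by
    by_contra hcon
    push Not at hcon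
    exact hs (ColMain_empty hcon _)
  have hid : ∀ x ∈ soC E c, ∀ y ∈ (soS F c' t).map Φ, x * y - y * x ∈ (soS F c' t).map Φ := by
    rintro x hx _ ⟨y, hy, rfl⟩
    obtain ⟨x, hx', rfl⟩ := h.surj x hx
    exact ⟨_, soS_ideal hF hx' hy, h.br _ hx' _ (soS_le t hy)⟩
  -- the part of colour `c i` is in the image
  have h1 : soS E c (c i) ≤ (soS F c' t).map Φ := by
    rcases ColMain_simple hE (hc i) ((soS F c' t).map Φ ⊓ soS E c (c i)) inf_le_right
      (fun x hx y hy => ⟨hid x (soS_le _ hx) y hy.1, soS_br hE hx hy.2⟩) with h0 | h0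
    · exfalso
      apply hs
      refine centre_zero hE (hc i) (pS_mem hE (h.mem _ (soS_le t hab2))) fun y hy => ?_
      have h2 : y * Φ (F a * F b) - Φ (F a * F b) * y ∈
          (soS F c' t).map Φ ⊓ soS E c (c i) := by
        refine ⟨hid y (soS_le _ hy) _ ⟨_, hab2, rfl⟩, ?_⟩
        have h3 := soS_ideal hE (h.mem _ (soS_le t hab2)) hy
        have h4 := neg_mem h3
        rwa [neg_sub] at h4
      rw [h0, Submodule.mem_bot] at h2
      have h3 := br_part hE (h.mem _ (soS_le t hab2)) hy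
      rw [← neg_sub, neg_eq_zero] at h2
      rw [h2] at h3
      rw [← neg_sub, neg_eq_zero]
      exact h3.symm
    · rw [← h0]
      exact inf_le_left
  -- the converse
  refine ⟨i, ?_, fun y hy => ?_⟩
  · have hid2 : ∀ x ∈ soS F c' t, ∀ y ∈ soS F c' t ⊓ (soS E c (c i)).comap Φ,
        x * y - y * x ∈ soS F c' t ⊓ (soS E c (c i)).comap Φ := by
      intro x hx y hy
      refine ⟨soS_br hF hx hy.1, ?_⟩
      change Φ (x * y - y * x) ∈ soS E c (c i)
      rw [h.br _ (soS_le t hx) _ (soS_le t hy.1)]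
      exact soS_ideal hE (h.mem _ (soS_le t hx)) hy.2
    rcases ColMain_simple hF ht _ inf_le_left hid2 with h0 | h0
    · exfalso
      obtain ⟨a', b', hab', ha', hb'⟩ := soS_ne (hc i)
      have h2 : E a' * E b' ∈ soS E c (c i) := Submodule.subset_span ⟨a', b', hab', ha', hb', rfl⟩
      obtain ⟨x, hx, hx2⟩ := h1 h2
      have h3 : x ∈ soS F c' t ⊓ (soS E c (c i)).comap Φ := ⟨hx, by
        change Φ x ∈ soS E c (c i)
        rw [hx2]
        exact h2⟩
      rw [h0, Submodule.mem_bot] at h3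
      rw [h3, map_zero] at hx2
      exact ColMain_ne hE hab' hx2.symm
    · intro x hx
      rw [← h0] at hx
      exact hx.2
  · obtain ⟨x, hx, hx2⟩ := h1 hy
    exact ⟨x, hx, hx2⟩

/-- **The relations between the images of the products of two generators.** -/
theorem col_rels (hE : CE E) (hF : CE F) (h : IsoC E c F c' Φ) (hc : ∀ i, 6 ≤ nc c (c i))
    (h8 : ∀ i, nc c (c i) ≠ 8) {t : Fin k'} (ht : 6 ≤ nc c' t) :
    (∀ a b, a ≠ b → c' a = t → c' b = t → Φ (F a * F b) * Φ (F a * F b) = -1) ∧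
    ∀ a b d, a ≠ b → a ≠ d → b ≠ d → c' a = t → c' b = t → c' d = t →
      Φ (F a * F b) * Φ (F a * F d) = -(Φ (F a * F d) * Φ (F a * F b)) := by
  obtain ⟨i, h1, h2⟩ := col_match hE hF h hc ht
  obtain ⟨E', f, hE', e1, e2, e3, e4, e5⟩ := sub_fam (c := c) hE (c i)
  obtain ⟨F', f', hF', e1', e2', e3', e4', e5'⟩ := sub_fam (c := c') hF t
  have hI : Iso E' F' Φ := by
    refine ⟨fun x hx => ?_, fun x hx y hy => ?_, fun x hx h0 => ?_, fun y hy => ?_⟩
    · rw [e1]
      exact h1 x (e1' ▸ hx)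
    · exact h.br _ (soS_le t (e1' ▸ hx)) _ (soS_le t (e1' ▸ hy))
    · exact h.inj _ (soS_le t (e1' ▸ hx)) h0
    · obtain ⟨x, hx, hx2⟩ := h2 y (e1 ▸ hy)
      exact ⟨x, e1'.symm ▸ hx, hx2⟩
  have h6 := hc i
  obtain ⟨r1, r2⟩ := iso_rels hE' hF' hI (by omega) (h8 i) (by omega)
  constructor
  · intro a b hab ha hb
    obtain ⟨a, rfl⟩ := e5' a ha
    obtain ⟨b, rfl⟩ := e5' b hb
    rw [← e2', ← e2']
    exact r1 a b fun h => hab (h ▸ rfl)
  · intro a b d hab had hbd ha hb hd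
    obtain ⟨a, rfl⟩ := e5' a ha
    obtain ⟨b, rfl⟩ := e5' b hb
    obtain ⟨d, rfl⟩ := e5' d hd
    rw [← e2', ← e2', ← e2']
    exact r2 a b d (fun h => hab (h ▸ rfl)) (fun h => had (h ▸ rfl)) fun h => hbd (h ▸ rfl)

/-- **The link theorem: isomorphisms of Lie algebras of spin type are given by intertwiners.** -/
theorem link (hE : CE E) (hF : CE F) (h : IsoC E c F c' Φ) (hc : ∀ i, 6 ≤ nc c (c i))
    (h8 : ∀ i, nc c (c i) ≠ 8) (hc' : ∀ i, 6 ≤ nc c' (c' i)) :
    ∃ M : U →ₗ[ℂ] U', M ≠ 0 ∧ ∀ x ∈ soC F c', x ∘ₗ M = M ∘ₗ Φ x := by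
  classical
  by_cases hN : IsEmpty (Fin N')
  · obtain ⟨u, hu⟩ := exists_ne (0 : U)
    obtain ⟨u', hu'⟩ := exists_ne (0 : U')
    obtain ⟨f, hf, -⟩ := Submodule.exists_le_ker_of_notMem (p := (⊥ : Submodule ℂ U))
      (v := u) (by rwa [Submodule.mem_bot])
    refine ⟨f.smulRight u', fun h => ?_, fun x hx => ?_⟩
    · have h1 := LinearMap.congr_fun h u
      rw [LinearMap.smulRight_apply, LinearMap.zero_apply] at h1
      exact (smul_ne_zero hf hu') h1
    · have h1 : x = 0 := by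
        have h2 : soC F c' ≤ ⊥ := by
          refine Submodule.span_le.2 ?_
          rintro _ ⟨i, _, _, _, rfl⟩
          exact hN.elim i
        exact (Submodule.mem_bot ℂ).1 (h2 hx)
      rw [h1, map_zero, LinearMap.zero_comp, LinearMap.comp_zero]
  rw [not_isEmpty_iff] at hN
  obtain ⟨b, hb1, hb2⟩ : ∃ b : Fin N' → Fin N', (∀ i, c' (b i) = c' i) ∧
      ∀ i j, c' i = c' j → b i = b j :=
    ⟨fun i => Function.invFun c' (c' i), fun i => Function.invFun_eq ⟨i, rfl⟩,
      fun i j hij => by beta_reduce; rw [hij]⟩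
  have hgen : ∀ i j, i ≠ j → c' i = c' j → F i * F j ∈ soC F c' := fun i j hij h =>
    Submodule.subset_span ⟨i, j, hij, h, rfl⟩
  -- squares and anticommutators
  have hsq : ∀ i j, i ≠ j → F i * F j * (F i * F j) = -1 := by
    intro i j hij
    calc F i * F j * (F i * F j) = F i * (F j * F i) * F j := by simp only [mul_assoc]
      _ = -(F i * F i * (F j * F j)) := by
        rw [hF.anti j i hij.symm, mul_neg, neg_mul]
        simp only [mul_assoc]
      _ = -1 := by rw [hF.sq, hF.sq, one_mul]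
  have hprod : ∀ i j l, i ≠ j → i ≠ l → F i * F j * (F i * F l) = -(F j * F l) := by
    intro i j l hij hil
    calc F i * F j * (F i * F l) = F i * (F j * F i) * F l := by simp only [mul_assoc]
      _ = -(F i * F i * (F j * F l)) := by
        rw [hF.anti j i hij.symm, mul_neg, neg_mul]
        simp only [mul_assoc]
      _ = -(F j * F l) := by rw [hF.sq, one_mul]
  let I := {i : Fin N' // b i ≠ i}
  have hsame : ∀ i j : I, i ≠ j → c' i = c' j → b i.1 = b j.1 ∧ b i.1 ≠ i.1 ∧ b i.1 ≠ j.1 ∧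
      i.1 ≠ j.1 := fun i j hij h => ⟨hb2 _ _ h, i.2, (hb2 _ _ h) ▸ j.2, fun h' =>
        hij (Subtype.ext h')⟩
  obtain ⟨M, hM0, hM⟩ := exists_intertwiner (I := I)
    (x := fun i => Φ (F (b i.1) * F i.1)) (y := fun i => F (b i.1) * F i.1) (z := fun i => F i.1)
    (ε := fun i j => if c' i.1 = c' j.1 then -1 else 1)
    (fun i j => by split_ifs <;> norm_num)
    (fun i => (col_rels hE hF h hc h8 (hc' i.1)).1 _ _ i.2 (hb1 _) rfl)
    (fun i => hsq _ _ i.2) (fun i => hF.sq _)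
    (fun i j hij => by
      split_ifs with hcc
      · obtain ⟨h1, h2, h3, h4⟩ := hsame i j hij hcc
        rw [neg_one_smul, ← h1]
        exact (col_rels hE hF h hc h8 (hc' i.1)).2 _ _ _ h2 h3 h4 (hb1 _) rfl hcc.symm
      · rw [one_smul, ← sub_eq_zero,
          ← h.br _ (hgen _ _ i.2 (hb1 _)) _ (hgen _ _ j.2 (hb1 _))]
        have h1 : F (b i.1) * F i.1 * (F (b j.1) * F j.1) =
            F (b j.1) * F j.1 * (F (b i.1) * F i.1) :=
          soS_comm hF hcc (Submodule.subset_span ⟨_, _, i.2, hb1 _, rfl, rfl⟩)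
            (Submodule.subset_span ⟨_, _, j.2, hb1 _, rfl, rfl⟩)
        rw [h1, sub_self, map_zero])
    (fun i j hij => by
      split_ifs with hcc
      · obtain ⟨h1, h2, h3, h4⟩ := hsame i j hij hcc
        rw [neg_one_smul, ← h1, hprod _ _ _ h2 h3, hprod _ _ _ h3 h2, hF.anti _ _ h4]
      · rw [one_smul]
        exact soS_comm hF hcc (Submodule.subset_span ⟨_, _, i.2, hb1 _, rfl, rfl⟩)
            (Submodule.subset_span ⟨_, _, j.2, hb1 _, rfl, rfl⟩))
    (fun i => by
      rw [← mul_assoc, hF.anti _ _ (Ne.symm i.2), neg_mul])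
    (fun i j hij => by
      have h1 : i.1 ≠ j.1 := fun h' => hij (Subtype.ext h')
      have h2 : i.1 ≠ b j.1 := by
        intro h'
        apply i.2
        have h3 : c' i.1 = c' j.1 := by rw [h', hb1]
        rw [hb2 _ _ h3, ← h']
      rw [← mul_assoc, hF.anti _ _ h2, neg_mul, mul_assoc, hF.anti _ _ h1, mul_neg, neg_neg,
        mul_assoc]) Finset.univ
  refine ⟨M, hM0, ?_⟩
  have hM' : ∀ i, b i ≠ i → (F (b i) * F i) ∘ₗ M = M ∘ₗ Φ (F (b i) * F i) := fun i hi =>
    hM ⟨i, hi⟩ (Finset.mem_univ _)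
  have key : ∀ i j, i ≠ j → c' i = c' j → (F i * F j) ∘ₗ M = M ∘ₗ Φ (F i * F j) := by
    intro i j hij hcc
    have hbb := hb2 _ _ hcc
    by_cases hi : b i = i
    · have hj : b j ≠ j := fun h => hij (by rw [← hi, hbb, h])
      have h1 := hM' j hj
      rwa [← hbb, hi] at h1
    · by_cases hj : b j = j
      · have h1 := hM' i hi
        rw [hbb, hj] at h1
        rw [hF.anti i j hij, map_neg, LinearMap.neg_comp, h1, LinearMap.comp_neg]
      · have h1 := hM' i hi
        have h2 := hM' j hj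
        rw [← hbb] at h2 hj
        have e1 : F i * F j = -(F (b i) * F i * (F (b i) * F j)) := by
          rw [hprod _ _ _ hi hj, neg_neg]
        have e2 : Φ (F i * F j) = -(Φ (F (b i) * F i) * Φ (F (b i) * F j)) := by
          have e3 : F (b i) * F i * (F (b i) * F j) - F (b i) * F j * (F (b i) * F i) =
              (-2 : ℂ) • (F i * F j) := by
            rw [hprod _ _ _ hi hj, hprod _ _ _ hj hi, hF.anti j i hij.symm, neg_smul, two_smul]
            abel
          have e4 := h.br _ (hgen _ _ hi (hb1 _)) _ (hgen _ _ hj ((hb1 _).trans hcc))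
          rw [e3, map_smul, (col_rels hE hF h hc h8 (hc' i)).2 _ _ _ (Ne.symm (Ne.symm hi)) hj hij
            (hb1 _) rfl hcc.symm] at e4
          have e5 := (col_rels hE hF h hc h8 (hc' i)).2 _ _ _ hi hj hij (hb1 _) rfl hcc.symm
          rw [← sub_eq_zero]
          have e6 : (-2 : ℂ) • (Φ (F i * F j) - -(Φ (F (b i) * F i) * Φ (F (b i) * F j))) = 0 := by
            rw [smul_sub, e4, e5]
            module
          exact (smul_eq_zero.1 e6).resolve_left (by norm_num)
        rw [e2, e1]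
        have h3 : (-(F (b i) * F i * (F (b i) * F j))) ∘ₗ M =
            -((F (b i) * F i) ∘ₗ ((F (b i) * F j) ∘ₗ M)) := by
          rw [LinearMap.neg_comp]
          rfl
        rw [h3, h2, ← LinearMap.comp_assoc, h1, LinearMap.comp_assoc, LinearMap.comp_neg]
        rfl
  intro x hx
  induction hx using Submodule.span_induction with
  | mem x hx =>
    obtain ⟨i, j, hij, hcc, rfl⟩ := hx
    exact key i j hij hcc
  | zero => rw [map_zero, LinearMap.zero_comp, LinearMap.comp_zero]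
  | add x y _ _ hx hy => rw [map_add, LinearMap.add_comp, LinearMap.comp_add, hx, hy]
  | smul r x _ hx => rw [map_smul, LinearMap.smul_comp, LinearMap.comp_smul, hx]

end Pool.Agent.T6.H14.GL
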