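import Pool.Agent.T6.H14.GL.Skw

set_option autoImplicit false
set_option linter.unusedSectionVars false

/-!
# Isomorphisms of orthogonal Lie algebras: decomposable elements
-/

open Module Matrix

noncomputable section

namespace Pool.Agent.T6.H14.GL

variable {r r' : ℕ}

/-- the decomposable elements -/
def wd (u w : Fin r → ℂ) : MM r := vecMulVec u w - vecMulVec w u

theorem wd_mem (u w : Fin r → ℂ) : wd u w ∈ so r := by
  rw [mem_so]
  unfold wd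
  rw [Matrix.transpose_sub, Matrix.transpose_vecMulVec, Matrix.transpose_vecMulVec, neg_sub]

theorem vmv_mul (u w u' w' : Fin r → ℂ) :
    vecMulVec u w * vecMulVec u' w' = (w ⬝ᵥ u') • vecMulVec u w' := by
  rw [Matrix.vecMulVec_mul_vecMulVec]
  ext i j
  simp [vecMulVec_apply, mul_comm, mul_left_comm]

theorem vmv_mid (X : MM r) (u w u' w' : Fin r → ℂ) :
    vecMulVec u w * X * vecMulVec u' w' = (w ⬝ᵥ X *ᵥ u') • vecMulVec u w' := by
  have h1 : vecMulVec u w * X = vecMulVec u (w ᵥ* X) := by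
    ext i j
    rw [Matrix.mul_apply, vecMulVec_apply]
    simp only [vecMulVec_apply, Matrix.vecMul, dotProduct, Finset.mul_sum, mul_assoc]
  rw [h1, vmv_mul, Matrix.dotProduct_mulVec]

theorem skew_self {X : MM r} (hX : X ∈ so r) (u : Fin r → ℂ) : u ⬝ᵥ X *ᵥ u = 0 := by
  have h1 : u ⬝ᵥ X *ᵥ u = -(u ⬝ᵥ X *ᵥ u) := by
    conv_lhs => rw [Matrix.dotProduct_mulVec, ← Matrix.mulVec_transpose, mem_so.1 hX,
      Matrix.neg_mulVec, neg_dotProduct, dotProduct_comm]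
  have h2 : (2 : ℂ) * (u ⬝ᵥ X *ᵥ u) = 0 := by linear_combination h1
  exact (mul_eq_zero.1 h2).resolve_left two_ne_zero

theorem skew_swap {X : MM r} (hX : X ∈ so r) (u w : Fin r → ℂ) :
    w ⬝ᵥ X *ᵥ u = -(u ⬝ᵥ X *ᵥ w) := by
  conv_lhs => rw [Matrix.dotProduct_mulVec, ← Matrix.mulVec_transpose, mem_so.1 hX,
    Matrix.neg_mulVec, neg_dotProduct, dotProduct_comm]

theorem wd_sq {u w : Fin r → ℂ} (h : u ⬝ᵥ w = 0) :
    wd u w * wd u w = -((w ⬝ᵥ w) • vecMulVec u u) - (u ⬝ᵥ u) • vecMulVec w w := by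
  have h' : w ⬝ᵥ u = 0 := by rw [dotProduct_comm, h]
  unfold wd
  rw [Matrix.sub_mul, Matrix.mul_sub, Matrix.mul_sub, vmv_mul, vmv_mul, vmv_mul, vmv_mul, h, h',
    zero_smul, zero_smul]
  abel

theorem wd_cube {u w : Fin r → ℂ} (h : u ⬝ᵥ w = 0) :
    wd u w * wd u w * wd u w = -(((u ⬝ᵥ u) * (w ⬝ᵥ w)) • wd u w) := by
  have h' : w ⬝ᵥ u = 0 := by rw [dotProduct_comm, h]
  rw [wd_sq h]
  unfold wd
  rw [Matrix.sub_mul, Matrix.neg_mul, Matrix.mul_sub, Matrix.mul_sub, Matrix.smul_mul,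
    Matrix.smul_mul, Matrix.smul_mul, Matrix.smul_mul, vmv_mul, vmv_mul, vmv_mul, vmv_mul, h, h']
  ext i j
  simp only [Matrix.sub_apply, Matrix.neg_apply, Matrix.smul_apply, smul_eq_mul]
  ring

theorem wd_trace {u w : Fin r → ℂ} (h : u ⬝ᵥ w = 0) :
    (wd u w * wd u w).trace = -2 * ((u ⬝ᵥ u) * (w ⬝ᵥ w)) := by
  rw [wd_sq h, Matrix.trace_sub, Matrix.trace_neg, Matrix.trace_smul, Matrix.trace_smul,
    Matrix.trace_vecMulVec, Matrix.trace_vecMulVec, smul_eq_mul, smul_eq_mul]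
  ring

theorem wd_mid {u w : Fin r → ℂ} (h : u ⬝ᵥ w = 0) {X : MM r} (hX : X ∈ so r) :
    wd u w * wd u w * X * wd u w = wd u w * X * (wd u w * wd u w) := by
  rw [wd_sq h]
  unfold wd
  simp only [Matrix.sub_mul, Matrix.neg_mul, Matrix.mul_sub, Matrix.mul_neg, Matrix.smul_mul,
    Matrix.mul_smul, vmv_mid, skew_self hX, skew_swap hX u w]
  ext i j
  simp only [Matrix.sub_apply, Matrix.neg_apply, Matrix.smul_apply, smul_eq_mul]
  ring

theorem wd_rel {u w : Fin r → ℂ} (h : u ⬝ᵥ w = 0) :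
    Rel3 ((u ⬝ᵥ u) * (w ⬝ᵥ w)) (wd u w) := by
  intro X hX
  rw [wd_cube h, wd_mid h hX, Matrix.neg_mul, Matrix.mul_neg, Matrix.smul_mul, Matrix.mul_smul,
    smul_sub]
  abel

/-! ### Isomorphisms -/

section iso

variable (φ : so r' ≃ₗ[ℂ] so r)

/-- the map is compatible with the brackets -/
def IsBr : Prop := ∀ x y : so r', (φ ⟨(x : MM r') * y - y * x, so_br x.2 y.2⟩ : MM r) =
  φ x * φ y - φ y * φ x

variable {φ}

theorem iso_dim (φ : so r' ≃ₗ[ℂ] so r) (h1 : 1 ≤ r) (h1' : 1 ≤ r') : r' = r := by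
  have h2 := two_finrank_so (r := r)
  have h3 := two_finrank_so (r := r')
  rw [φ.finrank_eq, h2] at h3
  have h4 : ((r : ℂ) - r') * (r + r' - 1) = 0 := by linear_combination h3
  have h5 : (r : ℂ) + r' - 1 ≠ 0 := by
    have h6 : (r : ℂ) + r' - 1 = ((r + r' - 1 : ℕ) : ℂ) := by
      rw [Nat.cast_sub (by omega)]
      push_cast
      ring
    rw [h6]
    exact_mod_cast (by omega : r + r' - 1 ≠ 0)
  have h6 := sub_eq_zero.1 ((mul_eq_zero.1 h4).resolve_right h5)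
  exact_mod_cast h6.symm

theorem iso_rel (hφ : IsBr φ) {N : ℂ} {x : so r'} (h : Rel3 N (x : MM r')) :
    Rel3 N (φ x : MM r) := by
  have key : ∀ {r : ℕ} (N : ℂ) (Y X : MM r), Y * Y * Y * X - (3 : ℂ) • (Y * Y * X * Y) +
      (3 : ℂ) • (Y * X * (Y * Y)) - X * (Y * Y * Y) + N • (Y * X - X * Y) =
      (Y * (Y * (Y * X - X * Y) - (Y * X - X * Y) * Y) -
        (Y * (Y * X - X * Y) - (Y * X - X * Y) * Y) * Y) + N • (Y * X - X * Y) := by
    intro r N Y X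
    have e3 : ∀ Z : MM r, (3 : ℂ) • Z = Z + Z + Z := by
      intro Z
      rw [show (3 : ℂ) = 1 + 1 + 1 by norm_num, add_smul, add_smul, one_smul]
    rw [e3, e3]
    simp only [Matrix.mul_sub, Matrix.sub_mul, Matrix.mul_assoc]
    abel
  intro X hX
  obtain ⟨X', hX'⟩ := φ.surjective ⟨X, hX⟩
  have hX2 : (φ X' : MM r) = X := by rw [hX']
  rw [key, ← hX2, ← hφ x X']
  have h2 := hφ x ⟨(x : MM r') * X' - X' * x, so_br x.2 X'.2⟩
  rw [← h2]
  have h3 := hφ x ⟨_, so_br x.2 (so_br x.2 X'.2)⟩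
  rw [← h3, ← Submodule.coe_smul, ← Submodule.coe_add, ← map_smul, ← map_add]
  have h4 : (⟨_, so_br x.2 (so_br x.2 (so_br x.2 X'.2))⟩ + N • ⟨_, so_br x.2 X'.2⟩ : so r') = 0 := by
    apply Subtype.ext
    have h5 := h X' X'.2
    rw [key] at h5
    exact h5
  rw [h4, map_zero]
  rfl

theorem iso_trace (hφ : IsBr φ) (x : so r') : ((r : ℂ) - 2) * ((φ x : MM r) * φ x).trace =
    ((r' : ℂ) - 2) * ((x : MM r') * x).trace := by
  rw [← trace_ad2 (φ x).2, ← trace_ad2 x.2, ← LinearMap.trace_conj' _ φ]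
  congr 1
  refine LinearMap.ext fun X => ?_
  obtain ⟨X, rfl⟩ := φ.surjective X
  rw [LinearEquiv.conj_apply_apply, LinearEquiv.symm_apply_apply]
  apply Subtype.ext
  change ad2 (φ x : MM r) (φ X : MM r) = (φ ⟨ad2 (x : MM r') (X : MM r'), _⟩ : MM r)
  rw [ad2_apply, ← hφ x X, ← hφ x ⟨_, so_br x.2 X.2⟩]
  congr 2
  apply Subtype.ext
  exact (ad2_apply _ _).symm

/-- **The images of the decomposable elements are decomposable.** -/
theorem iso_main (hφ : IsBr φ) (h3 : 3 ≤ r) (h8 : r ≠ 8) (h3' : 1 ≤ r') {u w : Fin r' → ℂ}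
    (h : u ⬝ᵥ w = 0) (hN : (u ⬝ᵥ u) * (w ⬝ᵥ w) ≠ 0) :
    ((φ ⟨wd u w, wd_mem u w⟩ : MM r) * φ ⟨wd u w, wd_mem u w⟩).trace =
      -2 * ((u ⬝ᵥ u) * (w ⬝ᵥ w)) ∧
    ∀ a b c d, (φ ⟨wd u w, wd_mem u w⟩ : MM r) a b * (φ ⟨wd u w, wd_mem u w⟩ : MM r) c d -
      (φ ⟨wd u w, wd_mem u w⟩ : MM r) a c * (φ ⟨wd u w, wd_mem u w⟩ : MM r) b d +
      (φ ⟨wd u w, wd_mem u w⟩ : MM r) a d * (φ ⟨wd u w, wd_mem u w⟩ : MM r) b c = 0 := by
  have hd := iso_dim φ (by omega) h3'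
  have ht := iso_trace hφ ⟨wd u w, wd_mem u w⟩
  have h2 : (r : ℂ) - 2 ≠ 0 := by
    rw [sub_ne_zero]
    exact_mod_cast (by omega : r ≠ 2)
  have ht2 : ((φ ⟨wd u w, wd_mem u w⟩ : MM r) * φ ⟨wd u w, wd_mem u w⟩).trace =
      -2 * ((u ⬝ᵥ u) * (w ⬝ᵥ w)) := by
    refine mul_left_cancel₀ h2 ?_
    have hd' : (r' : ℂ) = r := by exact_mod_cast hd
    rw [ht, wd_trace h, hd']
  have hrel := iso_rel hφ (x := ⟨wd u w, wd_mem u w⟩) (wd_rel h)
  have hc := cube_eq (φ ⟨wd u w, wd_mem u w⟩).2 hrel ht2 h8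
  exact ⟨ht2, plucker (φ ⟨wd u w, wd_mem u w⟩).2 hN hrel hc⟩

end iso

end Pool.Agent.T6.H14.GL
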