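import Pool.Agent.T6.H14.GL.Col
import Pool.Agent.R917.GrpLie

set_option autoImplicit false
set_option linter.unusedSectionVars false

/-!
# Isomorphisms of rational Lie algebras of spin type
-/

open Module Matrix

noncomputable section

namespace Pool.Agent.T6.H14.GL

open Pool.Agent.Y102.SP Pool.Agent.Y102 Pool.Agent.R917

/-- the rational endomorphisms -/
abbrev EQ (m : ℕ) : Type := Module.End ℚ (Fin m → ℚ)

variable {m m' : ℕ}

/-! ### Components -/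

theorem exists_lam {x : ℂ} (hx : x ≠ 0) : ∃ lam : ℂ →ₗ[ℚ] ℚ, lam x ≠ 0 := by
  obtain ⟨f, hf, -⟩ := Submodule.exists_le_ker_of_notMem (p := (⊥ : Submodule ℚ ℂ))
    (v := x) (by rwa [Submodule.mem_bot])
  exact ⟨f, hf⟩

/-- the rational components of a complex matrix -/
def cl (lam : ℂ →ₗ[ℚ] ℚ) (Y : Matrix (Fin m') (Fin m) ℂ) : (Fin m → ℚ) →ₗ[ℚ] (Fin m' → ℚ) :=
  Matrix.toLin' (Y.map lam)

theorem cl_eq_zero {Y : Matrix (Fin m') (Fin m) ℂ} (h : ∀ lam, cl lam Y = 0) : Y = 0 := by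
  ext i j
  by_contra hne
  obtain ⟨lam, hlam⟩ := exists_lam hne
  have h1 : Y.map lam = 0 := (Matrix.toLin' (R := ℚ)).injective ((h lam).trans (map_zero _).symm)
  exact hlam (congrFun (congrFun h1 i) j)

theorem rat_mul (lam : ℂ →ₗ[ℚ] ℚ) (q : ℚ) (x : ℂ) : lam ((q : ℂ) * x) = q * lam x := by
  have h1 : (q : ℂ) * x = q • x := by rw [Algebra.smul_def]; simp
  rw [h1, map_smul, smul_eq_mul]

theorem mul_rat (lam : ℂ →ₗ[ℚ] ℚ) (q : ℚ) (x : ℂ) : lam (x * (q : ℂ)) = lam x * q := by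
  rw [mul_comm, rat_mul, mul_comm]

theorem toC_entry (X : EQ m) (i j : Fin m) : toC X i j = ((LinearMap.toMatrix' X i j : ℚ) : ℂ) := by
  rw [toC_eq]
  rfl

theorem cl_mul_left (lam : ℂ →ₗ[ℚ] ℚ) (X : EQ m') (Y : Matrix (Fin m') (Fin m) ℂ) :
    cl lam (toC X * Y) = X ∘ₗ cl lam Y := by
  unfold cl
  have h1 : (toC X * Y).map lam = LinearMap.toMatrix' X * Y.map lam := by
    ext i j
    rw [Matrix.map_apply, Matrix.mul_apply, Matrix.mul_apply, map_sum]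
    exact Finset.sum_congr rfl fun k _ => by rw [toC_entry, rat_mul, Matrix.map_apply]
  rw [h1, Matrix.toLin'_mul, Matrix.toLin'_toMatrix']

theorem cl_mul_right (lam : ℂ →ₗ[ℚ] ℚ) (X : EQ m) (Y : Matrix (Fin m') (Fin m) ℂ) :
    cl lam (Y * toC X) = cl lam Y ∘ₗ X := by
  unfold cl
  have h1 : (Y * toC X).map lam = Y.map lam * LinearMap.toMatrix' X := by
    ext i j
    rw [Matrix.map_apply, Matrix.mul_apply, Matrix.mul_apply, map_sum]
    exact Finset.sum_congr rfl fun k _ => by rw [toC_entry, mul_rat, Matrix.map_apply]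
  rw [h1, Matrix.toLin'_mul, Matrix.toLin'_toMatrix']

theorem cl_add (lam : ℂ →ₗ[ℚ] ℚ) (Y Z : Matrix (Fin m') (Fin m) ℂ) :
    cl lam (Y + Z) = cl lam Y + cl lam Z := by
  unfold cl
  rw [← map_add]
  congr 1
  ext i j
  simp

theorem cl_smul (lam : ℂ →ₗ[ℚ] ℚ) (c : ℂ) (Y : Matrix (Fin m') (Fin m) ℂ) :
    cl lam (c • Y) = cl (lam ∘ₗ (LinearMap.mulLeft ℚ c)) Y := by
  unfold cl
  congr 1

/-- the complex span -/
def spC (𝔡 : Submodule ℚ (EQ m)) : Submodule ℂ (Matrix (Fin m) (Fin m) ℂ) :=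
  Submodule.span ℂ {Y | ∃ X ∈ 𝔡, Y = toC X}

theorem cl_mem {𝔡 : Submodule ℚ (EQ m)} {Y : Matrix (Fin m) (Fin m) ℂ} (hY : Y ∈ spC 𝔡) :
    ∀ lam, cl lam Y ∈ 𝔡 := by
  induction hY using Submodule.span_induction with
  | mem Y hY =>
    obtain ⟨X, hX, rfl⟩ := hY
    intro lam
    have h1 := cl_mul_right lam X (1 : Matrix (Fin m) (Fin m) ℂ)
    rw [Matrix.one_mul] at h1
    have h2 : cl lam (1 : Matrix (Fin m) (Fin m) ℂ) = lam 1 • LinearMap.id := by
      unfold cl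
      rw [← Matrix.toLin'_one, ← map_smul]
      congr 1
      ext i j
      rw [Matrix.map_apply, Matrix.smul_apply, Matrix.one_apply, Matrix.one_apply]
      split_ifs
      · rw [smul_eq_mul, mul_one]
      · rw [map_zero, smul_zero]
    rw [h1, h2, LinearMap.smul_comp, LinearMap.id_comp]
    exact 𝔡.smul_mem _ hX
  | zero =>
    intro lam
    have h1 : cl lam (0 : Matrix (Fin m) (Fin m) ℂ) = 0 := by
      unfold cl
      have h2 : (0 : Matrix (Fin m) (Fin m) ℂ).map lam = 0 := by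
        ext i j
        simp
      rw [h2, map_zero]
    rw [h1]
    exact 𝔡.zero_mem
  | add Y Z _ _ hY hZ =>
    intro lam
    rw [cl_add]
    exact 𝔡.add_mem (hY lam) (hZ lam)
  | smul c Y _ hY =>
    intro lam
    rw [cl_smul]
    exact hY _

/-! ### The complex extension of a rational linear map -/

/-- the extension -/
def extC (φ : EQ m' →ₗ[ℚ] EQ m) : Matrix (Fin m') (Fin m') ℂ →ₗ[ℂ] Matrix (Fin m) (Fin m) ℂ where
  toFun Y := ∑ a, ∑ b, Y a b • toC (φ (Matrix.toLin' (Matrix.single a b 1)))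
  map_add' Y Z := by
    simp only [Matrix.add_apply, add_smul, Finset.sum_add_distrib]
  map_smul' c Y := by
    simp only [Matrix.smul_apply, smul_eq_mul, mul_smul, Finset.smul_sum, RingHom.id_apply]

theorem toC_sum {ι : Type} (s : Finset ι) (f : ι → EQ m) :
    toC (∑ i ∈ s, f i) = ∑ i ∈ s, toC (f i) := by
  classical
  induction s using Finset.induction_on with
  | empty => rw [Finset.sum_empty, Finset.sum_empty, toC_zero]
  | insert a s ha ih => rw [Finset.sum_insert ha, Finset.sum_insert ha, toC_add, ih]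

theorem eq_sum_single (X : EQ m) :
    X = ∑ a, ∑ b, LinearMap.toMatrix' X a b • Matrix.toLin' (Matrix.single a b (1 : ℚ)) := by
  apply (LinearMap.toMatrix' (R := ℚ)).injective
  simp only [map_sum, map_smul, LinearMap.toMatrix'_toLin']
  conv_lhs => rw [Matrix.matrix_eq_sum_single (LinearMap.toMatrix' X)]
  refine Finset.sum_congr rfl fun a _ => Finset.sum_congr rfl fun b _ => ?_
  rw [Matrix.smul_single, smul_eq_mul, mul_one]

theorem extC_toC (φ : EQ m' →ₗ[ℚ] EQ m) (X : EQ m') : extC φ (toC X) = toC (φ X) := by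
  conv_rhs => rw [eq_sum_single X]
  simp only [map_sum, map_smul, toC_sum, toC_smul]
  change ∑ a, ∑ b, toC X a b • toC (φ (Matrix.toLin' (Matrix.single a b 1))) = _
  simp only [toC_entry]

theorem cl_extC (φ : EQ m' →ₗ[ℚ] EQ m) (lam : ℂ →ₗ[ℚ] ℚ) (Y : Matrix (Fin m') (Fin m') ℂ) :
    cl lam (extC φ Y) = φ (cl lam Y) := by
  conv_rhs => rw [eq_sum_single (cl lam Y)]
  simp only [map_sum, map_smul]
  apply (LinearMap.toMatrix' (R := ℚ)).injective
  simp only [map_sum, map_smul]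
  unfold cl
  rw [LinearMap.toMatrix'_toLin']
  simp only [LinearMap.toMatrix'_toLin']
  ext i j
  change lam ((∑ a, ∑ b, Y a b • toC (φ (Matrix.toLin' (Matrix.single a b 1)))) i j) = _
  simp only [Matrix.sum_apply, Matrix.smul_apply, map_sum, smul_eq_mul, toC_entry, mul_rat,
    Matrix.map_apply]

/-- an isomorphism of rational Lie algebras -/
structure IsoQ (𝔡 : Submodule ℚ (EQ m)) (𝔡' : Submodule ℚ (EQ m')) (φ : EQ m' →ₗ[ℚ] EQ m) :
    Prop where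
  mem : ∀ x ∈ 𝔡', φ x ∈ 𝔡
  br : ∀ x ∈ 𝔡', ∀ y ∈ 𝔡', φ (x * y - y * x) = φ x * φ y - φ y * φ x
  inj : ∀ x ∈ 𝔡', φ x = 0 → x = 0
  surj : ∀ y ∈ 𝔡, ∃ x ∈ 𝔡', φ x = y

variable {𝔡 : Submodule ℚ (EQ m)} {𝔡' : Submodule ℚ (EQ m')} {φ : EQ m' →ₗ[ℚ] EQ m}

theorem ext_mem (h : IsoQ 𝔡 𝔡' φ) : ∀ Y ∈ spC 𝔡', extC φ Y ∈ spC 𝔡 := by
  intro Y hY
  induction hY using Submodule.span_induction with
  | mem Y hY =>
    obtain ⟨X, hX, rfl⟩ := hY
    rw [extC_toC]
    exact Submodule.subset_span ⟨_, h.mem X hX, rfl⟩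
  | zero => rw [map_zero]; exact Submodule.zero_mem _
  | add Y Z _ _ hY hZ => rw [map_add]; exact Submodule.add_mem _ hY hZ
  | smul c Y _ hY => rw [map_smul]; exact Submodule.smul_mem _ _ hY

theorem ext_br (h : IsoQ 𝔡 𝔡' φ) : ∀ Y ∈ spC 𝔡', ∀ Z ∈ spC 𝔡',
    extC φ (Y * Z - Z * Y) = extC φ Y * extC φ Z - extC φ Z * extC φ Y := by
  intro Y hY Z hZ
  induction hY using Submodule.span_induction with
  | mem Y hY =>
    obtain ⟨X, hX, rfl⟩ := hY
    induction hZ using Submodule.span_induction with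
    | mem Z hZ =>
      obtain ⟨X', hX', rfl⟩ := hZ
      rw [← toC_mul, ← toC_mul, ← toC_sub, extC_toC, extC_toC, extC_toC, h.br X hX X' hX',
        toC_sub, toC_mul, toC_mul]
    | zero => simp
    | add Y Z _ _ hY hZ =>
      rw [Matrix.mul_add, Matrix.add_mul, add_sub_add_comm, map_add, hY, hZ, map_add]
      rw [Matrix.mul_add, Matrix.add_mul, add_sub_add_comm]
    | smul c Y _ hY =>
      rw [Matrix.mul_smul, Matrix.smul_mul, ← smul_sub, map_smul, hY, map_smul, Matrix.mul_smul,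
        Matrix.smul_mul, smul_sub]
  | zero => simp
  | add Y Y' _ _ hY hY' =>
    rw [Matrix.mul_add, Matrix.add_mul, add_sub_add_comm, map_add, hY, hY', map_add]
    rw [Matrix.mul_add, Matrix.add_mul, add_sub_add_comm]
  | smul c Y _ hY =>
    rw [Matrix.mul_smul, Matrix.smul_mul, ← smul_sub, map_smul, hY, map_smul, Matrix.mul_smul,
      Matrix.smul_mul, smul_sub]

theorem ext_inj (h : IsoQ 𝔡 𝔡' φ) : ∀ Y ∈ spC 𝔡', extC φ Y = 0 → Y = 0 := by
  intro Y hY h0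
  refine cl_eq_zero fun lam => h.inj _ (cl_mem hY lam) ?_
  rw [← cl_extC, h0]
  unfold cl
  have h2 : (0 : Matrix (Fin m) (Fin m) ℂ).map lam = 0 := by
    ext i j
    simp
  rw [h2, map_zero]

theorem ext_surj (h : IsoQ 𝔡 𝔡' φ) : ∀ Z ∈ spC 𝔡, ∃ Y ∈ spC 𝔡', extC φ Y = Z := by
  intro Z hZ
  induction hZ using Submodule.span_induction with
  | mem Z hZ =>
    obtain ⟨X, hX, rfl⟩ := hZ
    obtain ⟨X', hX', rfl⟩ := h.surj X hX
    exact ⟨toC X', Submodule.subset_span ⟨X', hX', rfl⟩, extC_toC _ _⟩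
  | zero => exact ⟨0, Submodule.zero_mem _, map_zero _⟩
  | add Z Z' _ _ hZ hZ' =>
    obtain ⟨Y, hY, rfl⟩ := hZ
    obtain ⟨Y', hY', rfl⟩ := hZ'
    exact ⟨Y + Y', Submodule.add_mem _ hY hY', map_add _ _ _⟩
  | smul c Z _ hZ =>
    obtain ⟨Y, hY, rfl⟩ := hZ
    exact ⟨c • Y, Submodule.smul_mem _ _ hY, map_smul _ _ _⟩

/-! ### Spin type -/

/-- The rational Lie algebra `𝔡` is of spin type. -/
structure Spin (𝔡 : Submodule ℚ (EQ m)) {N k : ℕ} (E : Fin N → Matrix (Fin m) (Fin m) ℂ)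
    (c : Fin N → Fin k) : Prop where
  sq : ∀ i, E i * E i = 1
  anti : ∀ i j, i ≠ j → E i * E j = -(E j * E i)
  col : ∀ i, 6 ≤ nc c (c i)
  eq : spC 𝔡 = Submodule.span ℂ {Y | ∃ i j, i ≠ j ∧ c i = c j ∧ Y = E i * E j}

/-- the matrices as endomorphisms -/
abbrev tL (m : ℕ) : Matrix (Fin m) (Fin m) ℂ ≃ₐ[ℂ] Module.End ℂ (Fin m → ℂ) :=
  Matrix.toLinAlgEquiv'

theorem Spin.ce {N k : ℕ} {E : Fin N → Matrix (Fin m) (Fin m) ℂ} {c : Fin N → Fin k}
    (h : Spin 𝔡 E c) : CE fun i => tL m (E i) :=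
  ⟨fun i => by rw [← map_mul, h.sq, map_one], fun i j hij => by
    rw [← map_mul, h.anti i j hij, map_neg, map_mul]⟩

theorem Spin.mem {N k : ℕ} {E : Fin N → Matrix (Fin m) (Fin m) ℂ} {c : Fin N → Fin k}
    (h : Spin 𝔡 E c) (Y : Matrix (Fin m) (Fin m) ℂ) :
    tL m Y ∈ soC (fun i => tL m (E i)) c ↔ Y ∈ spC 𝔡 := by
  have h1 : soC (fun i => tL m (E i)) c = (spC 𝔡).map (tL m).toLinearMap := by
    rw [h.eq, Submodule.map_span]
    unfold soC
    congr 1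
    ext Z
    constructor
    · rintro ⟨i, j, hij, hc, rfl⟩
      exact ⟨E i * E j, ⟨i, j, hij, hc, rfl⟩, map_mul (tL m) _ _⟩
    · rintro ⟨_, ⟨i, j, hij, hc, rfl⟩, rfl⟩
      exact ⟨i, j, hij, hc, map_mul (tL m) _ _⟩
  rw [h1]
  constructor
  · rintro ⟨Z, hZ, hZ2⟩
    have h2 : Z = Y := (tL m).injective hZ2
    rwa [← h2]
  · intro hY
    exact ⟨Y, hY, rfl⟩

/-- **The link theorem for rational Lie algebras of spin type.** -/
theorem link_rat {N k N' k' : ℕ} {E : Fin N → Matrix (Fin m) (Fin m) ℂ} {c : Fin N → Fin k}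
    {F : Fin N' → Matrix (Fin m') (Fin m') ℂ} {c' : Fin N' → Fin k'} (hE : Spin 𝔡 E c)
    (hF : Spin 𝔡' F c') (h8 : ∀ i, nc c (c i) ≠ 8) (hN : 0 < N) (hm : 0 < m) (hm' : 0 < m')
    (h : IsoQ 𝔡 𝔡' φ) : ∃ M : (Fin m → ℚ) →ₗ[ℚ] (Fin m' → ℚ),
      (∀ x ∈ 𝔡', x ∘ₗ M = M ∘ₗ φ x) ∧ ∃ x ∈ 𝔡, M ∘ₗ x ≠ 0 := by
  have _ : Nonempty (Fin m) := ⟨⟨0, hm⟩⟩
  have _ : Nonempty (Fin m') := ⟨⟨0, hm'⟩⟩
  let Φ : Module.End ℂ (Fin m' → ℂ) →ₗ[ℂ] Module.End ℂ (Fin m → ℂ) :=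
    (tL m).toLinearMap ∘ₗ extC φ ∘ₗ (tL m').symm.toLinearMap
  have hΦ : ∀ Y, Φ (tL m' Y) = tL m (extC φ Y) := by
    intro Y
    change tL m (extC φ ((tL m').symm (tL m' Y))) = _
    rw [AlgEquiv.symm_apply_apply]
  have hsurjE : ∀ x : Module.End ℂ (Fin m → ℂ), ∃ Y, tL m Y = x := (tL m).surjective
  have hsurjF : ∀ x : Module.End ℂ (Fin m' → ℂ), ∃ Y, tL m' Y = x := (tL m').surjective
  have hiso : IsoC (fun i => tL m (E i)) c (fun i => tL m' (F i)) c' Φ := by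
    refine ⟨fun x hx => ?_, fun x hx y hy => ?_, fun x hx h0 => ?_, fun y hy => ?_⟩
    · obtain ⟨Y, rfl⟩ := hsurjF x
      rw [hF.mem] at hx
      rw [hΦ, hE.mem]
      exact ext_mem h Y hx
    · obtain ⟨Y, rfl⟩ := hsurjF x
      obtain ⟨Z, rfl⟩ := hsurjF y
      rw [hF.mem] at hx hy
      rw [← map_mul, ← map_mul, ← map_sub, hΦ, hΦ, hΦ, ext_br h Y hx Z hy, map_sub, map_mul,
        map_mul]
    · obtain ⟨Y, rfl⟩ := hsurjF x
      rw [hF.mem] at hx
      rw [hΦ] at h0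
      rw [ext_inj h Y hx ((tL m).injective (h0.trans (map_zero _).symm)), map_zero]
    · obtain ⟨Y, rfl⟩ := hsurjE y
      rw [hE.mem] at hy
      obtain ⟨Z, hZ, hZ2⟩ := ext_surj h Y hy
      exact ⟨tL m' Z, (hF.mem Z).2 hZ, by rw [hΦ, hZ2]⟩
  obtain ⟨M, hM0, hM⟩ := link hE.ce hF.ce hiso hE.col h8 hF.col
  obtain ⟨P, hP⟩ : ∃ P : Matrix (Fin m') (Fin m) ℂ, P = LinearMap.toMatrix' M := ⟨_, rfl⟩
  have hPM : Matrix.toLin' P = M := by rw [hP, Matrix.toLin'_toMatrix']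
  have hP0 : P ≠ 0 := by
    intro h0
    rw [h0, map_zero] at hPM
    exact hM0 hPM.symm
  have hPc : ∀ Y ∈ spC 𝔡', Y * P = P * extC φ Y := by
    intro Y hY
    have h1 := hM (tL m' Y) ((hF.mem Y).2 hY)
    rw [hΦ, ← hPM] at h1
    apply (Matrix.toLin' (R := ℂ)).injective
    rw [Matrix.toLin'_mul, Matrix.toLin'_mul]
    exact h1
  obtain ⟨i, j, hij, hi, hj⟩ := soS_ne (hE.col ⟨0, hN⟩)
  have h1 : ∃ X ∈ 𝔡, P * toC X ≠ 0 := by
    by_contra hcon
    push Not at hcon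
    have h2 : ∀ Y ∈ spC 𝔡, P * Y = 0 := by
      intro Y hY
      induction hY using Submodule.span_induction with
      | mem Y hY =>
        obtain ⟨X, hX, rfl⟩ := hY
        exact hcon X hX
      | zero => rw [Matrix.mul_zero]
      | add Y Z _ _ hY hZ => rw [Matrix.mul_add, hY, hZ, add_zero]
      | smul c Y _ hY => rw [Matrix.mul_smul, hY, smul_zero]
    have h3 : E i * E j ∈ spC 𝔡 := by
      rw [hE.eq]
      exact Submodule.subset_span ⟨i, j, hij, hi.trans hj.symm, rfl⟩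
    apply hP0
    have h4 : E i * E j * (E j * E i) = 1 := by
      calc E i * E j * (E j * E i) = E i * (E j * E j) * E i := by simp only [Matrix.mul_assoc]
        _ = 1 := by rw [hE.sq, Matrix.mul_one, hE.sq]
    calc P = P * (E i * E j * (E j * E i)) := by rw [h4, Matrix.mul_one]
      _ = P * (E i * E j) * (E j * E i) := by simp only [Matrix.mul_assoc]
      _ = 0 := by rw [h2 _ h3, Matrix.zero_mul]
  obtain ⟨X, hX, hPX⟩ := h1
  obtain ⟨lam, hlam⟩ : ∃ lam, cl lam (P * toC X) ≠ 0 := by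
    by_contra hcon
    push Not at hcon
    exact hPX (cl_eq_zero hcon)
  refine ⟨cl lam P, fun x hx => ?_, X, hX, ?_⟩
  · have h2 := hPc (toC x) (Submodule.subset_span ⟨x, hx, rfl⟩)
    rw [extC_toC] at h2
    rw [← cl_mul_left, h2, cl_mul_right]
  · rw [← cl_mul_right]
    exact hlam

end Pool.Agent.T6.H14.GL
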