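import Pool.Agent.T6.H14.GL.Gou
import Pool.Agent.T6.H14.GL.Rat
import Pool.Agent.T6.H14.RD.Cen

set_option autoImplicit false
set_option linter.unusedSectionVars false

/-!
# Abelian varieties generated by families of abelian varieties with simple Lie algebras
-/

open Module Function TensorProduct Matrix

noncomputable section

namespace Pool.Agent.T6.H14.GL

open Pool.Agent.Y102 Pool.Agent.W516.DR Pool.Agent.H204R3.GP Pool.Agent.W516.KC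
  Pool.Agent.H204R3.SP Pool.Agent.TH119.MX Pool.Agent.R917.OM Pool.Agent.Y102.AbVar
  Pool.Agent.R917.EC Pool.Agent.R917.DT Pool.Agent.R917 Pool.Agent.T6.H14.CM
  Pool.Agent.T6.H14.RD

/-- Factorization of linear maps. -/
theorem exists_factor {V S T : Type} [AddCommGroup V] [Module ℚ V] [AddCommGroup S] [Module ℚ S]
    [AddCommGroup T] [Module ℚ T] (𝔨 : Submodule ℚ V) (ρ : V →ₗ[ℚ] S) (π : V →ₗ[ℚ] T)
    (h : ∀ X ∈ 𝔨, ρ X = 0 → π X = 0) : ∃ ψ : S →ₗ[ℚ] T, ∀ X ∈ 𝔨, ψ (ρ X) = π X := by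
  let ρ' : 𝔨 →ₗ[ℚ] S := ρ ∘ₗ 𝔨.subtype
  let π' : 𝔨 →ₗ[ℚ] T := π ∘ₗ 𝔨.subtype
  obtain ⟨s, hs⟩ := ρ'.rangeRestrict.exists_rightInverse_of_surjective ρ'.range_rangeRestrict
  obtain ⟨ψ, hψ⟩ := LinearMap.exists_extend (π' ∘ₗ s)
  refine ⟨ψ, fun X hX => ?_⟩
  have h1 : ψ (ρ X) = π' (s (ρ'.rangeRestrict ⟨X, hX⟩)) :=
    LinearMap.congr_fun hψ (ρ'.rangeRestrict ⟨X, hX⟩)
  rw [h1]
  have h2 : ρ' (s (ρ'.rangeRestrict ⟨X, hX⟩)) = ρ' ⟨X, hX⟩ :=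
    congrArg Subtype.val (LinearMap.congr_fun hs (ρ'.rangeRestrict ⟨X, hX⟩))
  have h3 : ρ (s (ρ'.rangeRestrict ⟨X, hX⟩) : V) = ρ X := h2
  have h4 := h ((s (ρ'.rangeRestrict ⟨X, hX⟩) : V) - X) (𝔨.sub_mem (Subtype.property _) hX)
    (by rw [map_sub, h3, sub_self])
  rw [map_sub, sub_eq_zero] at h4
  exact h4

variable {g g₁ g₂ : ℕ} {B : AbVar g}

theorem der_mono {W : Type} [AddCommGroup W] [Module ℚ W] {𝔥 𝔥' : Submodule ℚ (Module.End ℚ W)}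
    (h : 𝔥 ≤ 𝔥') : der 𝔥 ≤ der 𝔥' := by
  unfold der
  rw [Submodule.span_le]
  rintro _ ⟨X, hX, Y, hY, rfl⟩
  exact Submodule.subset_span ⟨X, h hX, Y, h hY, rfl⟩

section One

variable {A : AbVar g₁} {f : A.H1 →ₗ[ℚ] B.H1} {p : B.H1 →ₗ[ℚ] A.H1}

theorem rs_br (h : Fac A B f p) {X Y : Module.End ℚ B.H1} (hX : X ∈ B.NA) (hY : Y ∈ B.NA) :
    rs f p (X * Y - Y * X) = rs f p X * rs f p Y - rs f p Y * rs f p X := by
  rw [map_sub, h.rs_mul hY, h.rs_mul hX]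

theorem rs_der (h : Fac A B f p) : ∀ X ∈ der B.NA, rs f p X ∈ der A.NA := by
  intro X hX
  unfold der at hX
  induction hX using Submodule.span_induction with
  | mem X hX =>
    obtain ⟨P, hP, Q, hQ, rfl⟩ := hX
    rw [rs_br h hP hQ]
    exact Submodule.subset_span ⟨_, h.rs_NA hP, _, h.rs_NA hQ, rfl⟩
  | zero => rw [map_zero]; exact Submodule.zero_mem _
  | add a b _ _ ha hb => rw [map_add]; exact Submodule.add_mem _ ha hb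
  | smul c a _ ha => rw [map_smul]; exact Submodule.smul_mem _ _ ha

/-- The derived algebra is the image of the derived algebra. -/
theorem sur_der (h : Fac A B f p) {𝔥 : Submodule ℚ (Module.End ℚ B.H1)} (hle : 𝔥 ≤ B.NA)
    (H : ∀ X ∈ A.NA, ∀ Y ∈ A.NA, X * Y - Y * X ∈ 𝔥.map (rs f p)) :
    ∀ x ∈ der A.NA, ∃ X ∈ der 𝔥, rs f p X = x := by
  have h1 : der A.NA ≤ 𝔥.map (rs f p) := by
    unfold der
    rw [Submodule.span_le]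
    rintro _ ⟨X, hX, Y, hY, rfl⟩
    exact H X hX Y hY
  intro x hx
  have h2 := (Pool.Agent.R917.DT.full_NA (A := A)).perfect hx
  induction h2 using Submodule.span_induction with
  | mem x h2 =>
    obtain ⟨a, ha, b, hb, rfl⟩ := h2
    obtain ⟨X, hX, rfl⟩ := h1 ha
    obtain ⟨Y, hY, rfl⟩ := h1 hb
    exact ⟨X * Y - Y * X, Submodule.subset_span ⟨X, hX, Y, hY, rfl⟩,
      rs_br h (hle hX) (hle hY)⟩
  | zero => exact ⟨0, Submodule.zero_mem _, map_zero _⟩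
  | add a b ha hb iha ihb =>
    have hle' : Submodule.span ℚ {z | ∃ x ∈ der A.NA, ∃ y ∈ der A.NA, z = x * y - y * x} ≤
        der A.NA := by
      rw [Submodule.span_le]
      rintro _ ⟨x, hx, y, hy, rfl⟩
      exact Submodule.subset_span ⟨x, (Pool.Agent.R917.DT.full_NA (A := A)).der_le hx, y,
        (Pool.Agent.R917.DT.full_NA (A := A)).der_le hy, rfl⟩
    obtain ⟨X, hX, e1⟩ := iha (hle' ha)
    obtain ⟨Y, hY, e2⟩ := ihb (hle' hb)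
    exact ⟨X + Y, Submodule.add_mem _ hX hY, by rw [map_add, e1, e2]⟩
  | smul c a ha iha =>
    have hle' : Submodule.span ℚ {z | ∃ x ∈ der A.NA, ∃ y ∈ der A.NA, z = x * y - y * x} ≤
        der A.NA := by
      rw [Submodule.span_le]
      rintro _ ⟨x, hx, y, hy, rfl⟩
      exact Submodule.subset_span ⟨x, (Pool.Agent.R917.DT.full_NA (A := A)).der_le hx, y,
        (Pool.Agent.R917.DT.full_NA (A := A)).der_le hy, rfl⟩
    obtain ⟨X, hX, e1⟩ := iha (hle' ha)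
    exact ⟨c • X, Submodule.smul_mem _ _ hX, by rw [map_smul, e1]⟩

/-- The centre restricts to the centre. -/
theorem rs_central (h : Fac A B f p) {𝔥 : Submodule ℚ (Module.End ℚ B.H1)} (hle : 𝔥 ≤ B.NA)
    (F : A.Full (𝔥.map (rs f p))) {Z : Module.End ℚ B.H1} (hZ : Z ∈ B.NA)
    (hZc : ∀ Y ∈ 𝔥, Z * Y = Y * Z) : ∀ Y ∈ A.NA, rs f p Z * Y = Y * rs f p Z := by
  intro Y hY
  refine (F.comm (rs f p Z) ?_ Y hY).symm
  rintro _ ⟨X, hX, rfl⟩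
  rw [← h.rs_mul hZ, ← h.rs_mul (hle hX), hZc X hX]

end One

/-- The abelian varieties are linked: an isomorphism of the derived Lie algebras gives a
homomorphism. -/
def LinkP (A₁ : AbVar g₁) (A₂ : AbVar g₂) : Prop :=
  ∀ φ : Module.End ℚ A₂.H1 →ₗ[ℚ] Module.End ℚ A₁.H1, IsoQ (der A₁.NA) (der A₂.NA) φ →
    ∃ M : A₁.H1 →ₗ[ℚ] A₂.H1, (∀ x ∈ der A₂.NA, x ∘ₗ M = M ∘ₗ φ x) ∧
      (∃ x ∈ der A₁.NA, M ∘ₗ x ≠ 0) ∧
      (∀ Z ∈ A₁.NA, (∀ Y ∈ A₁.NA, Z * Y = Y * Z) → M ∘ₗ Z = 0) ∧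
      ∀ Z ∈ A₂.NA, (∀ Y ∈ A₂.NA, Z * Y = Y * Z) → Z ∘ₗ M = 0

section Two

variable {A₁ : AbVar g₁} {A₂ : AbVar g₂} {f₁ : A₁.H1 →ₗ[ℚ] B.H1} {p₁ : B.H1 →ₗ[ℚ] A₁.H1}
  {f₂ : A₂.H1 →ₗ[ℚ] B.H1} {p₂ : B.H1 →ₗ[ℚ] A₂.H1}

theorem comm_hom (h₁ : Fac A₁ B f₁ p₁) (h₂ : Fac A₂ B f₂ p₂) (M : A₁.H1 →ₗ[ℚ] A₂.H1)
    {X : Module.End ℚ B.H1} (hX : X ∈ B.NA) :
    X * (f₂ ∘ₗ M ∘ₗ p₁) = (f₂ ∘ₗ M ∘ₗ p₁) * X ↔ rs f₂ p₂ X ∘ₗ M = M ∘ₗ rs f₁ p₁ X := by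
  have e1 : ∀ w, X (f₂ (M (p₁ w))) = f₂ (rs f₂ p₂ X (M (p₁ w))) := fun w => (h₂.fix hX _).symm
  have e2 : ∀ w, p₁ (X w) = rs f₁ p₁ X (p₁ w) := by
    intro w
    have h5 := congrArg (fun T : Module.End ℚ B.H1 => p₁ (T w)) (B.NA_comm hX h₁.mem_EA)
    change p₁ (X (f₁ (p₁ w))) = p₁ (f₁ (p₁ (X w))) at h5
    rw [h₁.pf] at h5
    exact h5.symm
  constructor
  · intro h
    refine LinearMap.ext fun w => ?_
    have h3 : X (f₂ (M (p₁ (f₁ w)))) = f₂ (M (p₁ (X (f₁ w)))) := LinearMap.congr_fun h (f₁ w)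
    rw [e1, e2, h₁.pf] at h3
    have h4 := congrArg p₂ h3
    rw [h₂.pf, h₂.pf] at h4
    exact h4
  · intro h
    refine LinearMap.ext fun w => ?_
    change X (f₂ (M (p₁ w))) = f₂ (M (p₁ (X w)))
    rw [e1, e2]
    exact congrArg f₂ (LinearMap.congr_fun h (p₁ w))

/-- **Linked factors.** -/
theorem linked (h₁ : Fac A₁ B f₁ p₁) (h₂ : Fac A₂ B f₂ p₂) (L : LinkP A₁ A₂)
    {𝔥 : Submodule ℚ (Module.End ℚ B.H1)} (F : B.Full 𝔥) (F₁ : A₁.Full (𝔥.map (rs f₁ p₁)))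
    (F₂ : A₂.Full (𝔥.map (rs f₂ p₂))) (s₁ : ∀ x ∈ der A₁.NA, ∃ X ∈ der 𝔥, rs f₁ p₁ X = x)
    (s₂ : ∀ x ∈ der A₂.NA, ∃ X ∈ der 𝔥, rs f₂ p₂ X = x)
    (simp : ∀ I : Submodule ℚ (Module.End ℚ A₁.H1), I ≤ der A₁.NA →
      (∀ x ∈ der A₁.NA, ∀ y ∈ I, x * y - y * x ∈ I) → I = ⊥ ∨ I = der A₁.NA)
    (hl : ∀ X ∈ der 𝔥, rs f₁ p₁ X = 0 ↔ rs f₂ p₂ X = 0) :
    ∀ X ∈ der B.NA, rs f₁ p₁ X = 0 ↔ rs f₂ p₂ X = 0 := by
  have hle := F.le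
  have hdle : der 𝔥 ≤ der B.NA := der_mono hle
  have hdN : der B.NA ≤ B.NA := (Pool.Agent.R917.DT.full_NA (A := B)).der_le
  obtain ⟨φ, hφ⟩ := exists_factor (der 𝔥) (rs f₂ p₂) (rs f₁ p₁) fun X hX => (hl X hX).2
  have hiso : IsoQ (der A₁.NA) (der A₂.NA) φ := by
    refine ⟨fun x hx => ?_, fun x hx y hy => ?_, fun x hx h0 => ?_, fun y hy => ?_⟩
    · obtain ⟨X, hX, rfl⟩ := s₂ x hx
      rw [hφ X hX]
      exact rs_der h₁ X (hdle hX)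
    · obtain ⟨X, hX, rfl⟩ := s₂ x hx
      obtain ⟨Y, hY, rfl⟩ := s₂ y hy
      rw [← rs_br h₂ (hdN (hdle hX)) (hdN (hdle hY)), hφ X hX, hφ Y hY,
        hφ _ (Submodule.subset_span ⟨X, F.der_le hX, Y, F.der_le hY, rfl⟩),
        rs_br h₁ (hdN (hdle hX)) (hdN (hdle hY))]
    · obtain ⟨X, hX, rfl⟩ := s₂ x hx
      rw [hφ X hX] at h0
      exact (hl X hX).1 h0
    · obtain ⟨Y, hY, rfl⟩ := s₁ y hy
      exact ⟨rs f₂ p₂ Y, rs_der h₂ Y (hdle hY), hφ Y hY⟩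
  obtain ⟨M, m1, ⟨x₀, hx₀, m2⟩, m3, m4⟩ := L φ hiso
  have hP : ∀ X ∈ 𝔥, X * (f₂ ∘ₗ M ∘ₗ p₁) = (f₂ ∘ₗ M ∘ₗ p₁) * X := by
    intro X hX
    rw [comm_hom h₁ h₂ M (hle hX)]
    obtain ⟨Z, hZ, e, he, rfl, hZc⟩ := F.dec hX
    rw [map_add, map_add, LinearMap.add_comp, LinearMap.comp_add,
      m4 _ (h₂.rs_NA (hle hZ)) (rs_central h₂ hle F₂ (hle hZ) hZc),
      m3 _ (h₁.rs_NA (hle hZ)) (rs_central h₁ hle F₁ (hle hZ) hZc), zero_add, zero_add,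
      m1 _ (rs_der h₂ e (hdle he)), hφ e he]
  have hP2 : ∀ X ∈ B.NA, rs f₂ p₂ X ∘ₗ M = M ∘ₗ rs f₁ p₁ X := fun X hX =>
    (comm_hom h₁ h₂ M hX).1 (F.comm _ hP X hX)
  let I : Submodule ℚ (Module.End ℚ A₁.H1) :=
    { carrier := {x | x ∈ der A₁.NA ∧ M ∘ₗ x = 0}
      zero_mem' := ⟨Submodule.zero_mem _, LinearMap.comp_zero _⟩
      add_mem' := fun {a b} ha hb => ⟨Submodule.add_mem _ ha.1 hb.1, by
        rw [LinearMap.comp_add, ha.2, hb.2, add_zero]⟩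
      smul_mem' := fun c a ha => ⟨Submodule.smul_mem _ c ha.1, by
        rw [LinearMap.comp_smul, ha.2, smul_zero]⟩ }
  have hI : I = ⊥ := by
    refine (simp I (fun x hx => hx.1) ?_).resolve_right fun h => m2 ?_
    · intro x hx y hy
      have hN := (Pool.Agent.R917.DT.full_NA (A := A₁))
      refine ⟨Submodule.subset_span ⟨x, hN.der_le hx, y, hN.der_le hy.1, rfl⟩, ?_⟩
      obtain ⟨x', hx', rfl⟩ := hiso.surj x hx
      have e1 : M ∘ₗ (φ x' * y) = 0 := by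
        have e2 : M ∘ₗ (φ x' * y) = (M ∘ₗ φ x') ∘ₗ y := rfl
        rw [e2, ← m1 x' hx', LinearMap.comp_assoc, hy.2, LinearMap.comp_zero]
      have e3 : M ∘ₗ (y * φ x') = 0 := by
        have e2 : M ∘ₗ (y * φ x') = (M ∘ₗ y) ∘ₗ φ x' := rfl
        rw [e2, hy.2, LinearMap.zero_comp]
      rw [LinearMap.comp_sub, e1, e3, sub_zero]
    · have h2 : x₀ ∈ I := by
        rw [h]
        exact hx₀
      exact h2.2
  have hI' : ∀ x ∈ der A₁.NA, M ∘ₗ x = 0 → x = 0 := by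
    intro x hx h0
    have h2 : x ∈ I := ⟨hx, h0⟩
    rwa [hI, Submodule.mem_bot] at h2
  intro X hX
  have h3 := hP2 X (hdN hX)
  constructor
  · intro h0
    rw [h0, LinearMap.comp_zero] at h3
    refine hiso.inj _ (rs_der h₂ X hX) (hI' _ (hiso.mem _ (rs_der h₂ X hX)) ?_)
    rw [← m1 _ (rs_der h₂ X hX), h3]
  · intro h0
    rw [h0, LinearMap.zero_comp] at h3
    exact hI' _ (rs_der h₁ X hX) h3.symm

end Two

section Family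

variable {g₀ : ℕ} {B₀ : AbVar g₀} {C : AbVar g₂} {f₀ : B₀.H1 →ₗ[ℚ] B.H1}
  {p₀ : B.H1 →ₗ[ℚ] B₀.H1} {f₂ : C.H1 →ₗ[ℚ] B.H1} {p₂ : B.H1 →ₗ[ℚ] C.H1} {κ : Type} [Fintype κ]
  {γ : κ → ℕ} {A : ∀ i, AbVar (γ i)} {f : ∀ i, (A i).H1 →ₗ[ℚ] B.H1}
  {p : ∀ i, B.H1 →ₗ[ℚ] (A i).H1}

/-- **Abelian varieties generated by an abelian variety with a determined derived algebra, a family
of abelian varieties with simple derived algebras and an abelian variety with complex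
multiplication.** -/
theorem DX_fam (h₀ : Fac B₀ B f₀ p₀) (h : ∀ i, Fac (A i) B (f i) (p i)) (h₂ : Fac C B f₂ p₂)
    (hs : ∀ Y ∈ B.NA, rs f₀ p₀ Y = 0 → (∀ i, rs (f i) (p i) Y = 0) → rs f₂ p₂ Y = 0 → Y = 0)
    (H₀ : ∀ 𝔥, B₀.Full 𝔥 → ∀ X ∈ B₀.NA, ∀ Y ∈ B₀.NA, X * Y - Y * X ∈ 𝔥)
    (H : ∀ i, ∀ 𝔥, (A i).Full 𝔥 → ∀ X ∈ (A i).NA, ∀ Y ∈ (A i).NA, X * Y - Y * X ∈ 𝔥)
    (simp : ∀ i, ∀ I : Submodule ℚ (Module.End ℚ (A i).H1), I ≤ der (A i).NA →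
      (∀ x ∈ der (A i).NA, ∀ y ∈ I, x * y - y * x ∈ I) → I = ⊥ ∨ I = der (A i).NA)
    (ne : ∀ i, der (A i).NA ≠ ⊥)
    (quot : ∀ i, ¬ ∃ ψ : Module.End ℚ B₀.H1 →ₗ[ℚ] Module.End ℚ (A i).H1,
      (∀ x ∈ der B₀.NA, ∀ y ∈ der B₀.NA, ψ (x * y - y * x) = ψ x * ψ y - ψ y * ψ x) ∧
      (∀ x ∈ der B₀.NA, ψ x ∈ der (A i).NA) ∧ ∀ y ∈ der (A i).NA, ∃ x ∈ der B₀.NA, ψ x = y)
    (link : ∀ i j, i ≠ j → LinkP (A i) (A j) ∨ LinkP (A j) (A i))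
    (H₂ : Det C) (Hc : ∀ X ∈ C.NA, ∀ Y ∈ C.NA, X * Y = Y * X)
    (H₃ : ∀ Z ∈ B.NA, (∀ Y ∈ B.NA, Z * Y = Y * Z) → rs f₂ p₂ Z = 0 → Z = 0) : DX B := by
  intro 𝔥 hle hbr h0 hRC
  have F : B.Full 𝔥 := full_of_X0 B hle hbr h0
  have F₀ := map_full h₀ hle hbr h0
  have Fi := fun i => map_full (h i) hle hbr h0
  have s₀ := sur_der h₀ hle (H₀ _ F₀)
  have si := fun i => sur_der (h i) hle (H i _ (Fi i))
  have hdle : der 𝔥 ≤ der B.NA := der_mono hle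
  have hdN : der B.NA ≤ B.NA := (Pool.Agent.R917.DT.full_NA (A := B)).der_le
  have G : Gou (rs f₀ p₀) (fun i => rs (f i) (p i)) (der 𝔥) (der B.NA)
      (fun i => der (A i).NA) := by
    refine ⟨hdle, fun X hX Y hY => ?_, fun i => rs_der (h i), fun i X hX Y hY => ?_,
      fun X hX Y hY => ?_, si, fun i => ?_, simp, ne, fun i hq => ?_, fun X hX => ?_,
      fun i j hij hl => ?_⟩
    · exact Submodule.subset_span ⟨X, F.der_le hX, Y, F.der_le hY, rfl⟩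
    · exact rs_br (h i) (hdN hX) (hdN hY)
    · exact rs_br h₀ (hdN hX) (hdN hY)
    · exact (Pool.Agent.R917.DT.full_NA (A := A i)).perfect
    · obtain ⟨ψ, hψ⟩ := exists_factor (der 𝔥) (rs f₀ p₀) (rs (f i) (p i)) hq
      refine quot i ⟨ψ, fun x hx y hy => ?_, fun x hx => ?_, fun y hy => ?_⟩
      · obtain ⟨X, hX, rfl⟩ := s₀ x hx
        obtain ⟨Y, hY, rfl⟩ := s₀ y hy
        rw [← rs_br h₀ (hdN (hdle hX)) (hdN (hdle hY)), hψ X hX, hψ Y hY,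
          hψ _ (Submodule.subset_span ⟨X, F.der_le hX, Y, F.der_le hY, rfl⟩),
          rs_br (h i) (hdN (hdle hX)) (hdN (hdle hY))]
      · obtain ⟨X, hX, rfl⟩ := s₀ x hx
        rw [hψ X hX]
        exact rs_der (h i) X (hdle hX)
      · obtain ⟨Y, hY, rfl⟩ := si i y hy
        exact ⟨rs f₀ p₀ Y, rs_der h₀ Y (hdle hY), hψ Y hY⟩
    · exact s₀ _ (rs_der h₀ X hX)
    · rcases link i j hij with L | L
      · exact linked (h i) (h j) L F (Fi i) (Fi j) (si i) (si j) (simp i) hl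
      · intro X hX
        exact (linked (h j) (h i) L F (Fi j) (Fi i) (si j) (si i) (simp j)
          (fun X hX => (hl X hX).symm) X hX).symm
  have hcomm2 : ∀ X ∈ B.NA, ∀ Y ∈ B.NA, rs f₂ p₂ (X * Y - Y * X) = 0 := by
    intro X hX Y hY
    rw [rs_br h₂ hX hY, Hc _ (h₂.rs_NA hX) _ (h₂.rs_NA hY), sub_self]
  have hder2 : ∀ e ∈ der B.NA, rs f₂ p₂ e = 0 := by
    intro e he
    unfold der at he
    induction he using Submodule.span_induction with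
    | mem X hX =>
      obtain ⟨P, hP, Q, hQ, rfl⟩ := hX
      exact hcomm2 P hP Q hQ
    | zero => rw [map_zero]
    | add a b _ _ ha hb => rw [map_add, ha, hb, add_zero]
    | smul c a _ ha => rw [map_smul, ha, smul_zero]
  have hderle : der B.NA ≤ 𝔥 := by
    intro X hX
    obtain ⟨Y, hY, e1, e2⟩ := G.all X hX
    have h3 : X - Y = 0 := by
      refine hs _ (B.NA.sub_mem (hdN hX) (hle (F.der_le hY))) ?_ (fun i => ?_) ?_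
      · rw [map_sub, e1, sub_self]
      · rw [map_sub, e2 i, sub_self]
      · rw [map_sub, hder2 X hX, hder2 Y (hdle hY), sub_self]
    rw [sub_eq_zero.1 h3]
    exact F.der_le hY
  intro X hX
  obtain ⟨Z, hZ, e, he, rfl, hZc⟩ := (Pool.Agent.R917.DT.full_NA (A := B)).dec hX
  exact 𝔥.add_mem (centre_le h₂ H₂ Hc H₃ hle hbr h0 hRC hZ hZc) (hderle he)

end Family

end Pool.Agent.T6.H14.GL
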