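import Mathlib

set_option autoImplicit false
set_option linter.unusedSectionVars false

/-!
# A lemma of Goursat and Ribet for families of simple Lie algebras
-/

open Module

noncomputable section

namespace Pool.Agent.T6.H14.GL

section Gou

variable {R : Type} [Ring R] [Algebra ℚ R] {S₀ : Type} [Ring S₀] [Algebra ℚ S₀] {κ : Type}
  {S : κ → Type} [∀ i, Ring (S i)] [∀ i, Algebra ℚ (S i)]

/-- the data -/
structure Gou (ρ : R →ₗ[ℚ] S₀) (π : ∀ i, R →ₗ[ℚ] S i) (𝔨 𝔢 : Submodule ℚ R)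
    (𝔡 : ∀ i, Submodule ℚ (S i)) : Prop where
  le : 𝔨 ≤ 𝔢
  br : ∀ X ∈ 𝔨, ∀ Y ∈ 𝔨, X * Y - Y * X ∈ 𝔨
  mem : ∀ i, ∀ X ∈ 𝔢, π i X ∈ 𝔡 i
  pbr : ∀ i, ∀ X ∈ 𝔢, ∀ Y ∈ 𝔢, π i (X * Y - Y * X) = π i X * π i Y - π i Y * π i X
  rbr : ∀ X ∈ 𝔢, ∀ Y ∈ 𝔢, ρ (X * Y - Y * X) = ρ X * ρ Y - ρ Y * ρ X
  sur : ∀ i, ∀ x ∈ 𝔡 i, ∃ X ∈ 𝔨, π i X = x
  perf : ∀ i, 𝔡 i ≤ Submodule.span ℚ {z | ∃ x ∈ 𝔡 i, ∃ y ∈ 𝔡 i, z = x * y - y * x}
  simp : ∀ i, ∀ I : Submodule ℚ (S i), I ≤ 𝔡 i → (∀ x ∈ 𝔡 i, ∀ y ∈ I, x * y - y * x ∈ I) →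
    I = ⊥ ∨ I = 𝔡 i
  ne : ∀ i, 𝔡 i ≠ ⊥
  quot : ∀ i, ¬ ∀ X ∈ 𝔨, ρ X = 0 → π i X = 0
  rsur : ∀ X ∈ 𝔢, ∃ Y ∈ 𝔨, ρ Y = ρ X
  link : ∀ i j, i ≠ j → (∀ X ∈ 𝔨, π i X = 0 ↔ π j X = 0) → ∀ X ∈ 𝔢, π i X = 0 ↔ π j X = 0

variable {ρ : R →ₗ[ℚ] S₀} {π : ∀ i, R →ₗ[ℚ] S i} {𝔨 𝔢 : Submodule ℚ R}
  {𝔡 : ∀ i, Submodule ℚ (S i)}

/-- An ideal of the kernel is zero or everything. -/
theorem Gou.ker (h : Gou ρ π 𝔨 𝔢 𝔡) (i : κ) {T : Type} [Ring T] [Algebra ℚ T] (q : R →ₗ[ℚ] T)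
    (hq : ∀ X ∈ 𝔨, ∀ Y ∈ 𝔨, q (X * Y - Y * X) = q X * q Y - q Y * q X)
    (h0 : ¬ ∀ X ∈ 𝔨, q X = 0 → π i X = 0) : ∀ x ∈ 𝔡 i, ∃ X ∈ 𝔨, π i X = x ∧ q X = 0 := by
  let K : Submodule ℚ R := 𝔨 ⊓ LinearMap.ker q
  have hK : ∀ X, X ∈ K ↔ X ∈ 𝔨 ∧ q X = 0 := fun X => by
    change X ∈ 𝔨 ⊓ LinearMap.ker q ↔ _
    rw [Submodule.mem_inf, LinearMap.mem_ker]
  rcases h.simp i (K.map (π i)) (by
    rintro _ ⟨X, hX, rfl⟩
    exact h.mem i X (h.le ((hK X).1 hX).1)) (by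
    rintro x hx _ ⟨Y, hY, rfl⟩
    obtain ⟨X, hX, rfl⟩ := h.sur i x hx
    obtain ⟨hY1, hY2⟩ := (hK Y).1 hY
    refine ⟨X * Y - Y * X, (hK _).2 ⟨h.br X hX Y hY1, ?_⟩, h.pbr i X (h.le hX) Y (h.le hY1)⟩
    rw [hq X hX Y hY1, hY2, mul_zero, zero_mul, sub_zero]) with h1 | h1
  · exfalso
    apply h0
    intro X hX hX0
    have h2 : π i X ∈ K.map (π i) := ⟨X, (hK X).2 ⟨hX, hX0⟩, rfl⟩
    rwa [h1, Submodule.mem_bot] at h2
  · intro x hx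
    rw [← h1] at hx
    obtain ⟨X, hX, rfl⟩ := hx
    exact ⟨X, ((hK X).1 hX).1, rfl, ((hK X).1 hX).2⟩

/-- the pairs -/
theorem Gou.pair (h : Gou ρ π 𝔨 𝔢 𝔡) {i j : κ} (hij : i ≠ j)
    (h0 : ¬ ∀ X ∈ 𝔢, π i X = 0 ↔ π j X = 0) : ∀ x ∈ 𝔡 i, ∃ X ∈ 𝔨, π i X = x ∧ π j X = 0 := by
  refine h.ker i (π j) (fun X hX Y hY => h.pbr j X (h.le hX) Y (h.le hY)) fun h1 => ?_
  by_cases h2 : ∀ X ∈ 𝔨, π i X = 0 → π j X = 0
  · exact h0 (h.link i j hij fun X hX => ⟨h2 X hX, h1 X hX⟩)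
  · have h3 := h.ker j (π i) (fun X hX Y hY => h.pbr i X (h.le hX) Y (h.le hY)) h2
    apply h.ne i
    rw [Submodule.eq_bot_iff]
    intro x hx
    obtain ⟨X, hX, rfl⟩ := h.sur i x hx
    obtain ⟨Y, hY, e1, e2⟩ := h3 (π j X) (h.mem j X (h.le hX))
    have h4 := h1 (X - Y) (𝔨.sub_mem hX hY) (by rw [map_sub, e1, sub_self])
    rwa [map_sub, e2, sub_zero] at h4

/-- the lifts of the elements of one factor -/
theorem Gou.one (h : Gou ρ π 𝔨 𝔢 𝔡) (i : κ) (T : Finset κ)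
    (hT : ∀ j ∈ T, i ≠ j ∧ ¬ ∀ X ∈ 𝔢, π i X = 0 ↔ π j X = 0) :
    ∀ x ∈ 𝔡 i, ∃ X ∈ 𝔨, π i X = x ∧ ρ X = 0 ∧ ∀ j ∈ T, π j X = 0 := by
  classical
  induction T using Finset.induction_on with
  | empty =>
    intro x hx
    obtain ⟨X, hX, e1, e2⟩ := h.ker i ρ (fun X hX Y hY => h.rbr X (h.le hX) Y (h.le hY))
      (h.quot i) x hx
    exact ⟨X, hX, e1, e2, fun j hj => absurd hj (Finset.notMem_empty j)⟩
  | insert j T hj ih =>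
    have h1 := ih fun l hl => hT l (Finset.mem_insert_of_mem hl)
    obtain ⟨hij, hl⟩ := hT j (Finset.mem_insert_self j T)
    intro x hx
    have hx' := h.perf i hx
    induction hx' using Submodule.span_induction with
    | mem x hx' =>
      obtain ⟨a, ha, b, hb, rfl⟩ := hx'
      obtain ⟨X, hX, e1, e2⟩ := h.pair hij hl a ha
      obtain ⟨Y, hY, e3, e4, e5⟩ := h1 b hb
      refine ⟨X * Y - Y * X, h.br X hX Y hY, ?_, ?_, fun l hl => ?_⟩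
      · rw [h.pbr i X (h.le hX) Y (h.le hY), e1, e3]
      · rw [h.rbr X (h.le hX) Y (h.le hY), e4, mul_zero, zero_mul, sub_zero]
      · rw [h.pbr l X (h.le hX) Y (h.le hY)]
        rcases Finset.mem_insert.1 hl with rfl | hl
        · rw [e2, mul_zero, zero_mul, sub_zero]
        · rw [e5 l hl, mul_zero, zero_mul, sub_zero]
    | zero => exact ⟨0, 𝔨.zero_mem, map_zero _, map_zero _, fun l _ => map_zero _⟩
    | add a b ha hb iha ihb =>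
      have hle : Submodule.span ℚ {z | ∃ x ∈ 𝔡 i, ∃ y ∈ 𝔡 i, z = x * y - y * x} ≤ 𝔡 i := by
        rw [Submodule.span_le]
        rintro _ ⟨x, hx, y, hy, rfl⟩
        obtain ⟨X, hX, rfl⟩ := h.sur i x hx
        obtain ⟨Y, hY, rfl⟩ := h.sur i y hy
        rw [← h.pbr i X (h.le hX) Y (h.le hY)]
        exact h.mem i _ (h.le (h.br X hX Y hY))
      obtain ⟨X, hX, e1, e2, e3⟩ := iha (hle ha)
      obtain ⟨Y, hY, e4, e5, e6⟩ := ihb (hle hb)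
      exact ⟨X + Y, 𝔨.add_mem hX hY, by rw [map_add, e1, e4], by rw [map_add, e2, e5, add_zero],
        fun l hl => by rw [map_add, e3 l hl, e6 l hl, add_zero]⟩
    | smul c a ha iha =>
      have hle : Submodule.span ℚ {z | ∃ x ∈ 𝔡 i, ∃ y ∈ 𝔡 i, z = x * y - y * x} ≤ 𝔡 i := by
        rw [Submodule.span_le]
        rintro _ ⟨x, hx, y, hy, rfl⟩
        obtain ⟨X, hX, rfl⟩ := h.sur i x hx
        obtain ⟨Y, hY, rfl⟩ := h.sur i y hy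
        rw [← h.pbr i X (h.le hX) Y (h.le hY)]
        exact h.mem i _ (h.le (h.br X hX Y hY))
      obtain ⟨X, hX, e1, e2, e3⟩ := iha (hle ha)
      exact ⟨c • X, 𝔨.smul_mem c hX, by rw [map_smul, e1], by rw [map_smul, e2, smul_zero],
        fun l hl => by rw [map_smul, e3 l hl, smul_zero]⟩

/-- several factors -/
theorem Gou.many (h : Gou ρ π 𝔨 𝔢 𝔡) (T : Finset κ)
    (hT : ∀ i ∈ T, ∀ j ∈ T, i ≠ j → ¬ ∀ X ∈ 𝔢, π i X = 0 ↔ π j X = 0) :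
    ∀ X ∈ 𝔢, ∃ Y ∈ 𝔨, ρ Y = ρ X ∧ ∀ i ∈ T, π i Y = π i X := by
  classical
  intro X hX
  induction T using Finset.induction_on with
  | empty =>
    obtain ⟨Y, hY, e1⟩ := h.rsur X hX
    exact ⟨Y, hY, e1, fun j hj => absurd hj (Finset.notMem_empty j)⟩
  | insert i T hi ih =>
    obtain ⟨Y, hY, e1, e2⟩ := ih fun l hl m hm => hT l (Finset.mem_insert_of_mem hl) m
      (Finset.mem_insert_of_mem hm)
    have h1 : ∀ j ∈ T, i ≠ j ∧ ¬ ∀ X ∈ 𝔢, π i X = 0 ↔ π j X = 0 := by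
      intro j hj
      have hij : i ≠ j := by
        rintro rfl
        exact hi hj
      exact ⟨hij, hT i (Finset.mem_insert_self i T) j (Finset.mem_insert_of_mem hj) hij⟩
    obtain ⟨Y', hY', e3, e4, e5⟩ := h.one i T h1 (π i (X - Y)) (h.mem i _ (𝔢.sub_mem hX (h.le hY)))
    refine ⟨Y + Y', 𝔨.add_mem hY hY', ?_, fun l hl => ?_⟩
    · rw [map_add, e1, e4, add_zero]
    · rcases Finset.mem_insert.1 hl with rfl | hl
      · rw [map_add, e3, map_sub]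
        abel
      · rw [map_add, e2 l hl, e5 l hl, add_zero]

/-- **The elements have lifts in the subalgebra.** -/
theorem Gou.all [Fintype κ] (h : Gou ρ π 𝔨 𝔢 𝔡) :
    ∀ X ∈ 𝔢, ∃ Y ∈ 𝔨, ρ Y = ρ X ∧ ∀ i, π i Y = π i X := by
  classical
  let s : Setoid κ :=
    { r := fun i j => ∀ X ∈ 𝔢, π i X = 0 ↔ π j X = 0
      iseqv := ⟨fun i X _ => Iff.rfl, fun h1 X hX => (h1 X hX).symm,
        fun h1 h2 X hX => (h1 X hX).trans (h2 X hX)⟩ }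
  let r : κ → κ := fun i => (Quotient.mk s i).out
  have hr : ∀ i, ∀ X ∈ 𝔢, π (r i) X = 0 ↔ π i X = 0 := fun i =>
    Quotient.exact (s := s) (Quotient.out_eq (Quotient.mk s i))
  intro X hX
  obtain ⟨Y, hY, e1, e2⟩ := h.many (Finset.univ.image r) (by
    intro i hi j hj hij h1
    obtain ⟨i', -, rfl⟩ := Finset.mem_image.1 hi
    obtain ⟨j', -, rfl⟩ := Finset.mem_image.1 hj
    apply hij
    have h2 : Quotient.mk s (r i') = Quotient.mk s (r j') := Quotient.sound (s := s) h1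
    have h3 : Quotient.mk s i' = Quotient.mk s j' := by
      rw [← Quotient.out_eq (Quotient.mk s i'), ← Quotient.out_eq (Quotient.mk s j')]
      exact h2
    change (Quotient.mk s i').out = (Quotient.mk s j').out
    rw [h3]) X hX
  refine ⟨Y, hY, e1, fun i => ?_⟩
  have h1 := e2 (r i) (Finset.mem_image_of_mem r (Finset.mem_univ i))
  have h2 := (hr i (Y - X) (𝔢.sub_mem (h.le hY) hX)).1 (by rw [map_sub, h1, sub_self])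
  rwa [map_sub, sub_eq_zero] at h2

end Gou

end Pool.Agent.T6.H14.GL
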