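import Pool.Agent.T6.H14.GL.Fam

set_option autoImplicit false
set_option linter.unusedSectionVars false

/-!
# Abelian varieties of spin type
-/

open Module Function TensorProduct Matrix

noncomputable section

namespace Pool.Agent.T6.H14.GL

open Pool.Agent.Y102 Pool.Agent.W516.DR Pool.Agent.H204R3.GP Pool.Agent.W516.KC
  Pool.Agent.H204R3.SP Pool.Agent.TH119.MX Pool.Agent.R917.OM Pool.Agent.Y102.AbVar
  Pool.Agent.R917.EC Pool.Agent.R917.DT Pool.Agent.R917 Pool.Agent.T6.H14.CM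
  Pool.Agent.T6.H14.RD

variable {g g' : ℕ}

/-- The complex matrices `E i` show that `A` is of spin type. -/
structure SpT (A : AbVar g) {N k : ℕ} (E : Fin N → Matrix (Fin (2 * g)) (Fin (2 * g)) ℂ)
    (c : Fin N → Fin k) : Prop where
  sq : ∀ i, E i * E i = 1
  anti : ∀ i j, i ≠ j → E i * E j = -(E j * E i)
  col : ∀ i, 6 ≤ nc c (c i)
  eq : Submodule.span ℂ {Y | ∃ X ∈ A.NA, Y = toC X} =
    Submodule.span ℂ {Y | ∃ i j, i ≠ j ∧ c i = c j ∧ Y = E i * E j}

variable {A : AbVar g} {N k : ℕ} {E : Fin N → Matrix (Fin (2 * g)) (Fin (2 * g)) ℂ}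
  {c : Fin N → Fin k}

theorem bc_zero {W : Type} [AddCommGroup W] [Module ℚ W] [FiniteDimensional ℚ W] {X : Module.End ℚ W}
    (h : X.baseChange ℂ = 0) : X = 0 := by
  have h1 : X ∈ (⊥ : Submodule ℚ (Module.End ℚ W)) := by
    refine mem_of_bc ?_
    rw [h]
    exact Submodule.zero_mem _
  exact (Submodule.mem_bot ℚ).1 h1

namespace SpT

variable (h : SpT A E c)
include h

theorem ceE : SP.CE fun i => matE (2 * g) (E i) :=
  ⟨fun i => by rw [← map_mul, h.sq, map_one], fun i j hij => by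
    rw [← map_mul, h.anti i j hij, map_neg, map_mul]⟩

theorem cx_eq : cx A.NA = SP.soC (fun i => matE (2 * g) (E i)) c := by
  rw [← map_lie, h.eq, Submodule.map_span]
  unfold SP.soC
  congr 1
  ext Y
  constructor
  · rintro ⟨_, ⟨i, j, a, b, rfl⟩, rfl⟩
    exact ⟨i, j, a, b, map_mul (matE (2 * g)) _ _⟩
  · rintro ⟨i, j, a, b, rfl⟩
    exact ⟨_, ⟨i, j, a, b, rfl⟩, map_mul (matE (2 * g)) _ _⟩

theorem full {𝔥 : Submodule ℚ (Module.End ℚ A.H1)} (F : A.Full 𝔥) : A.NA ≤ 𝔥 :=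
  F.of_spin' h.sq h.anti h.col h.eq

theorem det : ∀ 𝔥, A.Full 𝔥 → ∀ X ∈ A.NA, ∀ Y ∈ A.NA, X * Y - Y * X ∈ 𝔥 :=
  fun _ F _ hX _ hY => h.full F (A.NA_bracket hX hY)

/-- the centre is zero -/
theorem centre {Z : Module.End ℚ A.H1} (hZ : Z ∈ A.NA) (hc : ∀ Y ∈ A.NA, Z * Y = Y * Z) :
    Z = 0 := by
  rcases subsingleton_or_nontrivial (ℂ ⊗[ℚ] A.H1) with hs | hn
  · refine bc_zero ?_
    ext x
    exact Subsingleton.elim _ _
  have hp := SP.soC_perfect h.ceE (c := c) fun i => le_trans (by norm_num) (h.col i)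
  rw [← h.cx_eq] at hp
  have h1 : ∀ Y ∈ cx A.NA, Z.baseChange ℂ * Y = Y * Z.baseChange ℂ :=
    cx_comm fun Y hY => by rw [← bc_mul, ← bc_mul, hc Y hY]
  have h2 : ∀ Y ∈ Submodule.span ℂ {z | ∃ x ∈ cx A.NA, ∃ y ∈ cx A.NA, z = x * y - y * x},
      LinearMap.trace ℂ _ (Z.baseChange ℂ * Y) = 0 := by
    intro Y hY
    induction hY using Submodule.span_induction with
    | mem Y hY =>
      obtain ⟨x, hx, y, hy, rfl⟩ := hY
      have e1 : Z.baseChange ℂ * (x * y - y * x) =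
          (Z.baseChange ℂ * x) * y - y * (Z.baseChange ℂ * x) := by
        rw [mul_sub, ← mul_assoc, ← mul_assoc, ← mul_assoc, h1 y hy]
      rw [e1, map_sub, LinearMap.trace_mul_comm, sub_self]
    | zero => rw [mul_zero, map_zero]
    | add a b _ _ ha hb => rw [mul_add, map_add, ha, hb, add_zero]
    | smul r a _ ha => rw [mul_smul_comm, map_smul, ha, smul_zero]
  refine A.NA_pos hZ (fun Y hY => (hc Y hY).symm) ?_
  have h3 := h2 _ (hp (bc_mem hZ))
  rw [← bc_mul, LinearMap.trace_baseChange] at h3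
  exact (algebraMap ℚ ℂ).injective (h3.trans (map_zero _).symm)

theorem der_eq : der A.NA = A.NA := by
  refine le_antisymm (Pool.Agent.R917.DT.full_NA (A := A)).der_le fun X hX => ?_
  obtain ⟨Z, hZ, e, he, rfl, hZc⟩ := (Pool.Agent.R917.DT.full_NA (A := A)).dec hX
  rw [h.centre hZ hZc, zero_add]
  exact he

theorem spin : Spin (der A.NA) E c where
  sq := h.sq
  anti := h.anti
  col := h.col
  eq := by
    rw [h.der_eq]
    exact h.eq

theorem pos (ne : der A.NA ≠ ⊥) : 0 < g ∧ 0 < N := by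
  obtain ⟨X, hX, hX0⟩ := (Submodule.ne_bot_iff _).1 ne
  constructor
  · rcases Nat.eq_zero_or_pos g with h0 | h0
    · exfalso
      subst h0
      apply hX0
      refine LinearMap.ext fun w => ?_
      funext i
      exact i.elim0
    · exact h0
  · rcases Nat.eq_zero_or_pos N with h0 | h0
    · exfalso
      subst h0
      apply hX0
      rw [h.der_eq] at hX
      have h1 : toC X ∈ Submodule.span ℂ {Y | ∃ X ∈ A.NA, Y = toC X} :=
        Submodule.subset_span ⟨X, hX, rfl⟩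
      rw [h.eq] at h1
      have h2 : {Y : Matrix (Fin (2 * g)) (Fin (2 * g)) ℂ |
          ∃ i j, i ≠ j ∧ c i = c j ∧ Y = E i * E j} = ∅ := by
        rw [Set.eq_empty_iff_forall_notMem]
        rintro Y ⟨i, -⟩
        exact i.elim0
      rw [h2, Submodule.span_empty, Submodule.mem_bot] at h1
      refine bc_zero ?_
      rw [← matE_toC, h1, map_zero]
    · exact h0

end SpT

/-- **Abelian varieties of spin type are linked.** -/
theorem linkP_spin {A' : AbVar g'} {N' k' : ℕ}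
    {E' : Fin N' → Matrix (Fin (2 * g')) (Fin (2 * g')) ℂ} {c' : Fin N' → Fin k'}
    (h : SpT A E c) (h' : SpT A' E' c') (h8 : ∀ i, nc c (c i) ≠ 8) (ne : der A.NA ≠ ⊥)
    (ne' : der A'.NA ≠ ⊥) : LinkP A A' := by
  intro φ hφ
  obtain ⟨hg, hN⟩ := h.pos ne
  obtain ⟨hg', -⟩ := h'.pos ne'
  obtain ⟨M, m1, m2⟩ := link_rat h.spin h'.spin h8 hN (by omega) (by omega) hφ
  refine ⟨M, m1, m2, fun Z hZ hc => ?_, fun Z hZ hc => ?_⟩
  · rw [h.centre hZ hc, LinearMap.comp_zero]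
  · rw [h'.centre hZ hc, LinearMap.zero_comp]

end Pool.Agent.T6.H14.GL
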