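import Pool.Agent.T6.H14.GL.Clf

set_option autoImplicit false
set_option linter.unusedSectionVars false

/-!
# Isomorphisms of orthogonal Lie algebras: the images of the products of two generators
-/

open Module Matrix

noncomputable section

namespace Pool.Agent.T6.H14.GL

open Pool.Agent.Y102.SP

variable {U U' : Type} [AddCommGroup U] [Module ℂ U] [AddCommGroup U'] [Module ℂ U'] {r r' : ℕ}
  {E : Fin r → Module.End ℂ U} {F : Fin r' → Module.End ℂ U'}

/-- the parametrization of the orthogonal Lie algebra -/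
def rhoEq [Nontrivial U] (hE : CE E) : so r ≃ₗ[ℂ] soE E :=
  LinearEquiv.ofBijective (((rho E).domRestrict (so r)).codRestrict (soE E) fun X => rho_mem X.2)
    ⟨by
      rw [← LinearMap.ker_eq_bot, LinearMap.ker_eq_bot']
      intro X hX
      exact Subtype.ext (rho_inj hE X.2 (congrArg Subtype.val hX)), fun x => by
      obtain ⟨X, hX, h⟩ := rho_surj hE x.2
      exact ⟨⟨X, hX⟩, Subtype.ext h⟩⟩

theorem rhoEq_apply [Nontrivial U] (hE : CE E) (X : so r) :
    (rhoEq hE X : Module.End ℂ U) = rho E X := rfl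

/-- an isomorphism of the Lie algebras -/
structure Iso (E : Fin r → Module.End ℂ U) (F : Fin r' → Module.End ℂ U')
    (Φ : Module.End ℂ U' →ₗ[ℂ] Module.End ℂ U) : Prop where
  mem : ∀ x ∈ soE F, Φ x ∈ soE E
  br : ∀ x ∈ soE F, ∀ y ∈ soE F, Φ (x * y - y * x) = Φ x * Φ y - Φ y * Φ x
  inj : ∀ x ∈ soE F, Φ x = 0 → x = 0
  surj : ∀ y ∈ soE E, ∃ x ∈ soE F, Φ x = y

variable {Φ : Module.End ℂ U' →ₗ[ℂ] Module.End ℂ U}

/-- the isomorphism -/
def isoEq (h : Iso E F Φ) : soE F ≃ₗ[ℂ] soE E :=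
  LinearEquiv.ofBijective ((Φ.domRestrict (soE F)).codRestrict (soE E) fun x => h.mem x x.2)
    ⟨by
      rw [← LinearMap.ker_eq_bot, LinearMap.ker_eq_bot']
      intro x hx
      exact Subtype.ext (h.inj x x.2 (congrArg Subtype.val hx)), fun y => by
      obtain ⟨x, hx, h1⟩ := h.surj y y.2
      exact ⟨⟨x, hx⟩, Subtype.ext h1⟩⟩

theorem soE_br (hE : CE E) {x y : Module.End ℂ U} (hx : x ∈ soE E) (hy : y ∈ soE E) :
    x * y - y * x ∈ soE E := by
  obtain ⟨X, hX, rfl⟩ := rho_surj hE hx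
  obtain ⟨Y, hY, rfl⟩ := rho_surj hE hy
  rw [rho_br hE hX hY]
  exact rho_mem (so_br hX hY)

theorem iso_sq [Nontrivial U] [Nontrivial U'] (hE : CE E) (hF : CE F) (h : Iso E F Φ)
    (h3 : 3 ≤ r) (h8 : r ≠ 8) (h3' : 1 ≤ r') {u w : Fin r' → ℂ} (huw : u ⬝ᵥ w = 0)
    (hN : (u ⬝ᵥ u) * (w ⬝ᵥ w) ≠ 0) : Φ (rho F (wd u w)) * Φ (rho F (wd u w)) =
      (-((u ⬝ᵥ u) * (w ⬝ᵥ w)) / 4) • 1 := by
  let φ : so r' ≃ₗ[ℂ] so r := (rhoEq hF).trans ((isoEq h).trans (rhoEq hE).symm)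
  have h1 : ∀ X : so r', rho E (φ X : MM r) = Φ (rho F X) := by
    intro X
    have h2 : rhoEq hE (φ X) = isoEq h (rhoEq hF X) := by
      change rhoEq hE ((rhoEq hE).symm _) = _
      rw [LinearEquiv.apply_symm_apply]
      rfl
    exact congrArg Subtype.val h2
  have hφ : IsBr φ := by
    intro x y
    have h2 : rho E ((φ ⟨(x : MM r') * y - y * x, so_br x.2 y.2⟩ : MM r) -
        (φ x * φ y - φ y * φ x)) = 0 := by
      rw [map_sub, ← rho_br hE (φ x).2 (φ y).2, h1, h1, h1]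
      change Φ (rho F ((x : MM r') * y - y * x)) - _ = 0
      rw [← rho_br hF x.2 y.2, h.br _ (rho_mem x.2) _ (rho_mem y.2), sub_self]
    have h3 := rho_inj hE ((so r).sub_mem (φ _).2 (so_br (φ x).2 (φ y).2)) h2
    exact sub_eq_zero.1 h3
  obtain ⟨ht, hp⟩ := iso_main hφ h3 h8 h3' huw hN
  have h4 := rho_sq hE hp
  rw [h1, ht] at h4
  change Φ (rho F (wd u w)) * Φ (rho F (wd u w)) = _ at h4
  rw [h4]
  congr 1
  ring

/-- **The relations between the images of the products of two generators.** -/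
theorem iso_rels [Nontrivial U] [Nontrivial U'] (hE : CE E) (hF : CE F) (h : Iso E F Φ)
    (h3 : 3 ≤ r) (h8 : r ≠ 8) (h3' : 1 ≤ r') :
    (∀ a b, a ≠ b → Φ (F a * F b) * Φ (F a * F b) = -1) ∧
    ∀ a b c, a ≠ b → a ≠ c → b ≠ c → Φ (F a * F b) * Φ (F a * F c) =
      -(Φ (F a * F c) * Φ (F a * F b)) := by
  have key1 : ∀ a b, a ≠ b → Φ (F a * F b) * Φ (F a * F b) = -1 := by
    intro a b hab
    have h1 := iso_sq hE hF h h3 h8 h3' (u := Pi.single a 1) (w := Pi.single b 1)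
      (by rw [single_dotProduct, Pi.single_eq_of_ne hab, mul_zero])
      (by rw [single_dotProduct, single_dotProduct, Pi.single_eq_same, Pi.single_eq_same]; simp)
    rw [single_dotProduct, single_dotProduct, Pi.single_eq_same, Pi.single_eq_same] at h1
    rw [← rho_wd_single hF hab, map_smul, smul_mul_smul_comm, h1, smul_smul]
    norm_num
  refine ⟨key1, fun a b c hab hac hbc => ?_⟩
  have e1 : (Pi.single a 1 : Fin r' → ℂ) ⬝ᵥ (Pi.single b 1 + Pi.single c 1) = 0 := by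
    rw [single_dotProduct, Pi.add_apply, Pi.single_eq_of_ne hab, Pi.single_eq_of_ne hac, add_zero,
      mul_zero]
  have e2 : (Pi.single a 1 : Fin r' → ℂ) ⬝ᵥ Pi.single a 1 = 1 := by
    rw [single_dotProduct, Pi.single_eq_same, one_mul]
  have e3 : (Pi.single b 1 + Pi.single c 1 : Fin r' → ℂ) ⬝ᵥ (Pi.single b 1 + Pi.single c 1) =
      2 := by
    rw [add_dotProduct, single_dotProduct, single_dotProduct, Pi.add_apply, Pi.add_apply,
      Pi.single_eq_same, Pi.single_eq_same, Pi.single_eq_of_ne hbc, Pi.single_eq_of_ne hbc.symm]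
    norm_num
  have h1 := iso_sq hE hF h h3 h8 h3' e1 (by rw [e2, e3]; norm_num)
  rw [e2, e3] at h1
  have h2 : Φ (F a * F b + F a * F c) * Φ (F a * F b + F a * F c) = -2 := by
    rw [← rho_wd_add hF hab hac, map_smul, smul_mul_smul_comm, h1, smul_smul]
    norm_num
    rw [two_smul, one_add_one_eq_two]
  rw [map_add, add_mul, mul_add, mul_add, key1 a b hab, key1 a c hac] at h2
  have h4 : (2 : Module.End ℂ U) = 1 + 1 := one_add_one_eq_two.symm
  rw [h4] at h2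
  refine eq_neg_of_add_eq_zero_left ?_
  calc Φ (F a * F b) * Φ (F a * F c) + Φ (F a * F c) * Φ (F a * F b) =
      (-1 + Φ (F a * F b) * Φ (F a * F c) + (Φ (F a * F c) * Φ (F a * F b) + -1)) + (1 + 1) := by
        abel
    _ = 0 := by
      rw [h2]
      abel

/-! ### Intertwiners -/

/-- **The existence of intertwiners.** -/
theorem exists_intertwiner [Nontrivial U] {I : Type} [DecidableEq I]
    (x : I → Module.End ℂ U) (y z : I → Module.End ℂ U') (ε : I → I → ℂ)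
    (hε : ∀ i j, ε i j * ε i j = 1) (hx : ∀ i, x i * x i = -1) (hy : ∀ i, y i * y i = -1)
    (hz : ∀ i, z i * z i = 1) (hxx : ∀ i j, i ≠ j → x i * x j = ε i j • (x j * x i))
    (hyy : ∀ i j, i ≠ j → y i * y j = ε i j • (y j * y i))
    (hzy : ∀ i, z i * y i = -(y i * z i)) (hzy' : ∀ i j, i ≠ j → z i * y j = y j * z i)
    [Nontrivial U'] (Q : Finset I) :
    ∃ M : U →ₗ[ℂ] U', M ≠ 0 ∧ ∀ i ∈ Q, y i ∘ₗ M = M ∘ₗ x i := by
  induction Q using Finset.induction_on with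
  | empty =>
    obtain ⟨u, hu⟩ := exists_ne (0 : U)
    obtain ⟨u', hu'⟩ := exists_ne (0 : U')
    obtain ⟨f, hf, -⟩ := Submodule.exists_le_ker_of_notMem (p := (⊥ : Submodule ℂ U))
      (v := u) (by rwa [Submodule.mem_bot])
    refine ⟨f.smulRight u', fun h => ?_, fun i hi => absurd hi (Finset.notMem_empty i)⟩
    have h1 := LinearMap.congr_fun h u
    rw [LinearMap.smulRight_apply, LinearMap.zero_apply] at h1
    exact (smul_ne_zero hf hu') h1
  | insert k Q hk ih =>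
    obtain ⟨M, hM0, hM⟩ := ih
    have hmem : ∀ M : U →ₗ[ℂ] U', (∀ i ∈ Q, y i ∘ₗ M = M ∘ₗ x i) →
        ∀ i ∈ insert k Q, y i ∘ₗ (M - y k ∘ₗ M ∘ₗ x k) = (M - y k ∘ₗ M ∘ₗ x k) ∘ₗ x i := by
      intro M hM i hi
      rcases Finset.mem_insert.1 hi with rfl | hi
      · have e1 : (y i ∘ₗ y i : U' →ₗ[ℂ] U') = -LinearMap.id := hy i
        have e2 : (x i ∘ₗ x i : U →ₗ[ℂ] U) = -LinearMap.id := hx i
        rw [LinearMap.comp_sub, LinearMap.sub_comp, ← LinearMap.comp_assoc, e1,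
          LinearMap.comp_assoc, LinearMap.comp_assoc, e2, LinearMap.neg_comp, LinearMap.comp_neg,
          LinearMap.id_comp, LinearMap.comp_id, LinearMap.comp_neg]
        abel
      · have hik : i ≠ k := fun h => hk (h ▸ hi)
        have e1 : (y i ∘ₗ y k : U' →ₗ[ℂ] U') = ε i k • (y k ∘ₗ y i) := hyy i k hik
        have e2 : (x i ∘ₗ x k : U →ₗ[ℂ] U) = ε i k • (x k ∘ₗ x i) := hxx i k hik
        have e3 := hM i hi
        rw [LinearMap.comp_sub, LinearMap.sub_comp, e3]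
        congr 1
        calc y i ∘ₗ y k ∘ₗ M ∘ₗ x k = (y i ∘ₗ y k) ∘ₗ M ∘ₗ x k := by
              rw [LinearMap.comp_assoc]
          _ = ε i k • (y k ∘ₗ (y i ∘ₗ M) ∘ₗ x k) := by
              rw [e1, LinearMap.smul_comp]
              simp only [LinearMap.comp_assoc]
          _ = ε i k • (y k ∘ₗ M ∘ₗ (x i ∘ₗ x k)) := by
              rw [e3]
              simp only [LinearMap.comp_assoc]
          _ = (ε i k * ε i k) • (y k ∘ₗ M ∘ₗ (x k ∘ₗ x i)) := by
              rw [e2, LinearMap.comp_smul, LinearMap.comp_smul, smul_smul]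
          _ = (y k ∘ₗ M ∘ₗ x k) ∘ₗ x i := by
              rw [hε, one_smul]
              simp only [LinearMap.comp_assoc]
    by_cases h0 : M - y k ∘ₗ M ∘ₗ x k = 0
    · have hz0 : z k ∘ₗ M ≠ 0 := by
        intro h
        apply hM0
        have e1 : (z k ∘ₗ z k : U' →ₗ[ℂ] U') = LinearMap.id := hz k
        calc M = (z k ∘ₗ z k) ∘ₗ M := by rw [e1, LinearMap.id_comp]
          _ = 0 := by rw [LinearMap.comp_assoc, h, LinearMap.comp_zero]
      refine ⟨z k ∘ₗ M - y k ∘ₗ (z k ∘ₗ M) ∘ₗ x k, fun h => hz0 ?_, hmem _ fun i hi => ?_⟩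
      · have e1 : (z k ∘ₗ y k : U' →ₗ[ℂ] U') = -(y k ∘ₗ z k) := hzy k
        have e2 : y k ∘ₗ (z k ∘ₗ M) ∘ₗ x k = -(z k ∘ₗ M) := by
          calc y k ∘ₗ (z k ∘ₗ M) ∘ₗ x k = (y k ∘ₗ z k) ∘ₗ M ∘ₗ x k := by
                simp only [LinearMap.comp_assoc]
            _ = -(z k ∘ₗ (y k ∘ₗ M ∘ₗ x k)) := by
                rw [← neg_eq_iff_eq_neg.2 e1, LinearMap.neg_comp]
                simp only [LinearMap.comp_assoc]
            _ = -(z k ∘ₗ M) := by rw [← sub_eq_zero.1 h0]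
        rw [e2, sub_neg_eq_add, ← two_smul ℂ] at h
        exact (smul_eq_zero.1 h).resolve_left two_ne_zero
      · have hki : k ≠ i := fun h => hk (h ▸ hi)
        have e1 : (z k ∘ₗ y i : U' →ₗ[ℂ] U') = y i ∘ₗ z k := hzy' k i hki
        calc y i ∘ₗ z k ∘ₗ M = (y i ∘ₗ z k) ∘ₗ M := by rw [LinearMap.comp_assoc]
          _ = z k ∘ₗ (y i ∘ₗ M) := by rw [← e1, LinearMap.comp_assoc]
          _ = (z k ∘ₗ M) ∘ₗ x i := by rw [hM i hi, LinearMap.comp_assoc]
    · exact ⟨_, h0, hmem M hM⟩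

end Pool.Agent.T6.H14.GL
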