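import Pool.Agent.T6.H14.GL.Ins

set_option autoImplicit false
set_option linter.unusedSectionVars false
set_option linter.unusedSimpArgs false

/-!
# Lie algebras of type `A_1` have no quotients of spin type
-/

open Module Function TensorProduct Matrix

noncomputable section

namespace Pool.Agent.T6.H14.GL

open Pool.Agent.Y102 Pool.Agent.W516.DR Pool.Agent.H204R3.GP Pool.Agent.W516.KC
  Pool.Agent.H204R3.SP Pool.Agent.TH119.MX Pool.Agent.R917.OM Pool.Agent.Y102.AbVar
  Pool.Agent.R917.EC Pool.Agent.R917.DT Pool.Agent.R917 Pool.Agent.T6.H14.CM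
  Pool.Agent.T6.H14.RD

section Id

variable {R : Type} [Ring R]

/-- the commutator -/
def bk (x y : R) : R := x * y - y * x

/-- the identity of Razmyslov -/
def Rz (x x' y z t : R) : R :=
  bk (bk (bk y z) (bk t x)) x' + bk (bk (bk y z) (bk t x')) x + bk (bk (bk y x) (bk z x')) t +
    bk (bk (bk y x') (bk z x)) t

/-- the Lie algebra satisfies the identity -/
def RazOn (M : Set R) : Prop :=
  ∀ x ∈ M, ∀ x' ∈ M, ∀ y ∈ M, ∀ z ∈ M, ∀ t ∈ M, Rz x x' y z t = 0

theorem bk_zero_left (x : R) : bk 0 x = 0 := by unfold bk; rw [zero_mul, mul_zero, sub_zero]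

theorem bk_zero_right (x : R) : bk x 0 = 0 := by unfold bk; rw [zero_mul, mul_zero, sub_zero]

theorem bk_add_left (x x' y : R) : bk (x + x') y = bk x y + bk x' y := by
  unfold bk; rw [add_mul, mul_add]; abel

theorem bk_add_right (x y y' : R) : bk x (y + y') = bk x y + bk x y' := by
  unfold bk; rw [add_mul, mul_add]; abel

variable [Algebra ℂ R]

theorem bk_smul_left (c : ℂ) (x y : R) : bk (c • x) y = c • bk x y := by
  unfold bk; rw [smul_mul_assoc, mul_smul_comm, smul_sub]

theorem bk_smul_right (c : ℂ) (x y : R) : bk x (c • y) = c • bk x y := by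
  unfold bk; rw [smul_mul_assoc, mul_smul_comm, smul_sub]

theorem RazOn.span {M : Set R} (h : RazOn M) : RazOn (Submodule.span ℂ M : Set R) := by
  intro x hx
  induction hx using Submodule.span_induction with
  | zero => intros; simp only [Rz, bk_zero_left, bk_zero_right, add_zero]
  | add a b _ _ iha ihb =>
    intro x' hx' y hy z hz t ht
    have e1 := iha x' hx' y hy z hz t ht
    have e2 := ihb x' hx' y hy z hz t ht
    rw [← add_zero (0 : R)]
    nth_rw 1 [← e1]
    rw [← e2]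
    simp only [Rz, bk_add_left, bk_add_right]
    abel
  | smul c a _ iha =>
    intro x' hx' y hy z hz t ht
    have e1 := iha x' hx' y hy z hz t ht
    rw [← smul_zero c, ← e1]
    simp only [Rz, bk_smul_left, bk_smul_right, smul_add]
  | mem x hx =>
    intro x' hx'
    induction hx' using Submodule.span_induction with
    | zero => intros; simp only [Rz, bk_zero_left, bk_zero_right, add_zero]
    | add a b _ _ iha ihb =>
      intro y hy z hz t ht
      have e1 := iha y hy z hz t ht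
      have e2 := ihb y hy z hz t ht
      rw [← add_zero (0 : R)]
      nth_rw 1 [← e1]
      rw [← e2]
      simp only [Rz, bk_add_left, bk_add_right]
      abel
    | smul c a _ iha =>
      intro y hy z hz t ht
      have e1 := iha y hy z hz t ht
      rw [← smul_zero c, ← e1]
      simp only [Rz, bk_smul_left, bk_smul_right, smul_add]
    | mem x' hx' =>
      intro y hy
      induction hy using Submodule.span_induction with
      | zero => intros; simp only [Rz, bk_zero_left, bk_zero_right, add_zero]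
      | add a b _ _ iha ihb =>
        intro z hz t ht
        have e1 := iha z hz t ht
        have e2 := ihb z hz t ht
        rw [← add_zero (0 : R)]
        nth_rw 1 [← e1]
        rw [← e2]
        simp only [Rz, bk_add_left, bk_add_right]
        abel
      | smul c a _ iha =>
        intro z hz t ht
        have e1 := iha z hz t ht
        rw [← smul_zero c, ← e1]
        simp only [Rz, bk_smul_left, bk_smul_right, smul_add]
      | mem y hy =>
        intro z hz
        induction hz using Submodule.span_induction with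
        | zero => intros; simp only [Rz, bk_zero_left, bk_zero_right, add_zero]
        | add a b _ _ iha ihb =>
          intro t ht
          have e1 := iha t ht
          have e2 := ihb t ht
          rw [← add_zero (0 : R)]
          nth_rw 1 [← e1]
          rw [← e2]
          simp only [Rz, bk_add_left, bk_add_right]
          abel
        | smul c a _ iha =>
          intro t ht
          have e1 := iha t ht
          rw [← smul_zero c, ← e1]
          simp only [Rz, bk_smul_left, bk_smul_right, smul_add]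
        | mem z hz =>
          intro t ht
          induction ht using Submodule.span_induction with
          | zero => simp only [Rz, bk_zero_left, bk_zero_right, add_zero]
          | add a b _ _ iha ihb =>
            rw [← add_zero (0 : R)]
            nth_rw 1 [← iha]
            rw [← ihb]
            simp only [Rz, bk_add_left, bk_add_right]
            abel
          | smul c a _ iha =>
            rw [← smul_zero c, ← iha]
            simp only [Rz, bk_smul_left, bk_smul_right, smul_add]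
          | mem t ht => exact h x hx x' hx' y hy z hz t ht

end Id

set_option maxHeartbeats 4000000 in
/-- The identity for matrices of size two. -/
theorem Rz_two (x x' y z t : Matrix (Fin 2) (Fin 2) ℂ) : Rz x x' y z t = 0 := by
  unfold Rz bk
  ext i j
  fin_cases i <;> fin_cases j <;>
    simp only [Matrix.add_apply, Matrix.sub_apply, Matrix.mul_apply, Fin.sum_univ_two,
      Fin.zero_eta, Fin.mk_one, Matrix.zero_apply] <;> ring

/-- the identity and homomorphisms -/
theorem map_Rz {R S : Type} [Ring R] [Ring S] {M : Set R} {χ : R → S}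
    (hadd : ∀ a b, χ (a + b) = χ a + χ b) (hM : ∀ x ∈ M, ∀ y ∈ M, bk x y ∈ M)
    (h : ∀ x ∈ M, ∀ y ∈ M, χ (bk x y) = bk (χ x) (χ y)) {x x' y z t : R} (hx : x ∈ M)
    (hx' : x' ∈ M) (hy : y ∈ M) (hz : z ∈ M) (ht : t ∈ M) :
    χ (Rz x x' y z t) = Rz (χ x) (χ x') (χ y) (χ z) (χ t) := by
  unfold Rz
  rw [hadd, hadd, hadd, h _ (hM _ (hM _ hy _ hz) _ (hM _ ht _ hx)) _ hx',
    h _ (hM _ (hM _ hy _ hz) _ (hM _ ht _ hx')) _ hx,
    h _ (hM _ (hM _ hy _ hx) _ (hM _ hz _ hx')) _ ht,
    h _ (hM _ (hM _ hy _ hx') _ (hM _ hz _ hx)) _ ht,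
    h _ (hM _ hy _ hz) _ (hM _ ht _ hx), h _ (hM _ hy _ hz) _ (hM _ ht _ hx'),
    h _ (hM _ hy _ hx) _ (hM _ hz _ hx'), h _ (hM _ hy _ hx') _ (hM _ hz _ hx),
    h _ hy _ hz, h _ ht _ hx, h _ ht _ hx', h _ hy _ hx, h _ hz _ hx', h _ hy _ hx', h _ hz _ hx]

/-- Type `A_1`. -/
theorem RazOn.typeA {R : Type} [Ring R] [Algebra ℂ R] {I : Type} [Fintype I] [DecidableEq I]
    {φ : I → TA.S →ₗ[ℂ] R} {M : Submodule ℂ R} (h : TA.TypeA φ M) : RazOn (M : Set R) := by
  have key : ∀ {X Y : R} {ξ η : I → TA.S}, X ∈ M → Y ∈ M → TA.Dec φ M X ξ → TA.Dec φ M Y η →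
      bk X Y ∈ M ∧ TA.Dec φ M (bk X Y) (fun i => bk (ξ i) (η i)) ∧
        bk X Y = ∑ i, φ i (bk (ξ i) (η i)) := by
    intro X Y ξ η hX hY h1 h2
    have h3 : bk X Y = ∑ i, φ i (bk (ξ i) (η i)) := h.br hX hY h1 h2
    refine ⟨?_, h.dec_br hX hY h1 h2, h3⟩
    rw [h3]
    exact h.sum_mem fun i => TA.trace_br _ _
  intro x hx x' hx' y hy z hz t ht
  obtain ⟨a, ha⟩ := h.dec x hx
  obtain ⟨a', ha'⟩ := h.dec x' hx'
  obtain ⟨b, hb⟩ := h.dec y hy
  obtain ⟨c, hc⟩ := h.dec z hz
  obtain ⟨d, hd⟩ := h.dec t ht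
  obtain ⟨m1, d1, -⟩ := key hy hz hb hc
  obtain ⟨m2, d2, -⟩ := key ht hx hd ha
  obtain ⟨m3, d3, -⟩ := key ht hx' hd ha'
  obtain ⟨m4, d4, -⟩ := key hy hx hb ha
  obtain ⟨m5, d5, -⟩ := key hz hx' hc ha'
  obtain ⟨m6, d6, -⟩ := key hy hx' hb ha'
  obtain ⟨m7, d7, -⟩ := key hz hx hc ha
  obtain ⟨n1, f1, -⟩ := key m1 m2 d1 d2
  obtain ⟨n2, f2, -⟩ := key m1 m3 d1 d3
  obtain ⟨n3, f3, -⟩ := key m4 m5 d4 d5
  obtain ⟨n4, f4, -⟩ := key m6 m7 d6 d7
  obtain ⟨-, -, e1⟩ := key n1 hx' f1 ha'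
  obtain ⟨-, -, e2⟩ := key n2 hx f2 ha
  obtain ⟨-, -, e3⟩ := key n3 ht f3 hd
  obtain ⟨-, -, e4⟩ := key n4 ht f4 hd
  unfold Rz
  rw [e1, e2, e3, e4, ← Finset.sum_add_distrib, ← Finset.sum_add_distrib,
    ← Finset.sum_add_distrib]
  refine Finset.sum_eq_zero fun i _ => ?_
  rw [← map_add, ← map_add, ← map_add]
  have h5 := Rz_two (a i) (a' i) (b i) (c i) (d i)
  unfold Rz at h5
  rw [h5, map_zero]

/-- Sums of planes. -/
theorem RazOn.planes {W : Type} [AddCommGroup W] [Module ℂ W] [FiniteDimensional ℂ W] {I : Type}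
    [Fintype I] {P : I → Module.End ℂ W} {M : Set (Module.End ℂ W)}
    (h1 : ∀ i, ∀ X ∈ M, P i * X = X * P i) (h2 : ∀ i, P i * P i = P i)
    (h3 : ∀ i, LinearMap.trace ℂ W (P i) = 2) (h4 : ∑ i, P i = 1) : RazOn M := by
  have key : ∀ i, ∃ (U : W →ₗ[ℂ] (Fin 2 → ℂ)) (V : (Fin 2 → ℂ) →ₗ[ℂ] W), V ∘ₗ U = P i ∧
      U ∘ₗ V = LinearMap.id := by
    intro i
    have h5 : Module.finrank ℂ (LinearMap.range (P i)) = 2 := by
      have h6 := LinearMap.IsProj.trace (p := LinearMap.range (P i)) (f := P i)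
        ⟨fun x => ⟨x, rfl⟩, by
          rintro _ ⟨x, rfl⟩
          exact LinearMap.congr_fun (h2 i) x⟩
      rw [h3] at h6
      exact_mod_cast h6.symm
    let e : LinearMap.range (P i) ≃ₗ[ℂ] (Fin 2 → ℂ) :=
      LinearEquiv.ofFinrankEq _ _ (by rw [h5, Module.finrank_fin_fun])
    refine ⟨e.toLinearMap ∘ₗ (P i).rangeRestrict, (LinearMap.range (P i)).subtype ∘ₗ
      e.symm.toLinearMap, ?_, ?_⟩
    · refine LinearMap.ext fun w => ?_
      change ((e.symm (e ((P i).rangeRestrict w)) : LinearMap.range (P i)) : W) = P i w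
      rw [e.symm_apply_apply]
      rfl
    · refine LinearMap.ext fun w => ?_
      change e ((P i).rangeRestrict ((e.symm w : LinearMap.range (P i)) : W)) = w
      have h6 : (P i).rangeRestrict ((e.symm w : LinearMap.range (P i)) : W) = e.symm w := by
        obtain ⟨x, hx⟩ := (e.symm w).2
        apply Subtype.ext
        change P i ((e.symm w : LinearMap.range (P i)) : W) = _
        rw [← hx]
        exact LinearMap.congr_fun (h2 i) x
      rw [h6, e.apply_symm_apply]
  choose U V hVU hUV using key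
  let M' : Set (Module.End ℂ W) := {X | ∀ i, P i * X = X * P i}
  have hM' : ∀ x ∈ M', ∀ y ∈ M', bk x y ∈ M' := by
    intro x hx y hy i
    unfold bk
    have e1 : P i * (x * y) = x * y * P i := by rw [← mul_assoc, hx i, mul_assoc, hy i, mul_assoc]
    have e2 : P i * (y * x) = y * x * P i := by rw [← mul_assoc, hy i, mul_assoc, hx i, mul_assoc]
    rw [mul_sub, sub_mul, e1, e2]
  let χ : I → Module.End ℂ W → Matrix (Fin 2) (Fin 2) ℂ := fun i X =>
    LinearMap.toMatrix' (U i ∘ₗ X ∘ₗ V i)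
  have hadd : ∀ i a b, χ i (a + b) = χ i a + χ i b := by
    intro i a b
    change LinearMap.toMatrix' _ = LinearMap.toMatrix' _ + LinearMap.toMatrix' _
    rw [← map_add, LinearMap.add_comp, LinearMap.comp_add]
  have hPV : ∀ i w, P i (V i w) = V i w := by
    intro i w
    have h5 : P i (V i w) = V i (U i (V i w)) := LinearMap.congr_fun (hVU i).symm (V i w)
    have h6 : U i (V i w) = w := LinearMap.congr_fun (hUV i) w
    rw [h5, h6]
  have hmul : ∀ i, ∀ a, ∀ b ∈ M', χ i (a * b) = χ i a * χ i b := by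
    intro i a b hb
    change LinearMap.toMatrix' _ = LinearMap.toMatrix' _ * LinearMap.toMatrix' _
    rw [← LinearMap.toMatrix'_comp]
    congr 1
    refine LinearMap.ext fun w => ?_
    change U i (a (b (V i w))) = U i (a (V i (U i (b (V i w)))))
    have h5 : V i (U i (b (V i w))) = P i (b (V i w)) := LinearMap.congr_fun (hVU i) _
    have h6 : P i (b (V i w)) = b (P i (V i w)) := LinearMap.congr_fun (hb i) (V i w)
    rw [h5, h6, hPV]
  have hneg : ∀ i a, χ i (-a) = -χ i a := by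
    intro i a
    have h5 := hadd i a (-a)
    rw [add_neg_cancel] at h5
    have h6 : χ i 0 = 0 := by
      change LinearMap.toMatrix' _ = 0
      rw [LinearMap.zero_comp, LinearMap.comp_zero, map_zero]
    rw [h6] at h5
    exact eq_neg_of_add_eq_zero_right h5.symm
  have hbk : ∀ i, ∀ x ∈ M', ∀ y ∈ M', χ i (bk x y) = bk (χ i x) (χ i y) := by
    intro i x hx y hy
    unfold bk
    rw [sub_eq_add_neg, hadd, hneg, hmul i x y hy, hmul i y x hx, sub_eq_add_neg]
  have hMM : ∀ x ∈ M, x ∈ M' := fun x hx i => h1 i x hx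
  intro x hx x' hx' y hy z hz t ht
  have hR : Rz x x' y z t ∈ M' := by
    have e1 := hMM x hx
    have e2 := hMM x' hx'
    have e3 := hMM y hy
    have e4 := hMM z hz
    have e5 := hMM t ht
    have a1 := hM' _ (hM' _ (hM' _ e3 _ e4) _ (hM' _ e5 _ e1)) _ e2
    have a2 := hM' _ (hM' _ (hM' _ e3 _ e4) _ (hM' _ e5 _ e2)) _ e1
    have a3 := hM' _ (hM' _ (hM' _ e3 _ e1) _ (hM' _ e4 _ e2)) _ e5
    have a4 := hM' _ (hM' _ (hM' _ e3 _ e2) _ (hM' _ e4 _ e1)) _ e5
    intro i
    unfold Rz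
    rw [mul_add, mul_add, mul_add, add_mul, add_mul, add_mul, a1 i, a2 i, a3 i, a4 i]
  have h0 : ∀ i, P i * Rz x x' y z t = 0 := by
    intro i
    have h5 := map_Rz (hadd i) hM' (hbk i) (hMM x hx) (hMM x' hx') (hMM y hy) (hMM z hz)
      (hMM t ht)
    rw [Rz_two] at h5
    have h6 : U i ∘ₗ Rz x x' y z t ∘ₗ V i = 0 :=
      LinearMap.toMatrix'.injective (h5.trans (map_zero _).symm)
    rw [← h2 i, mul_assoc, hR i]
    refine LinearMap.ext fun w => ?_
    have h7 := congrArg (V i) (LinearMap.congr_fun h6 (U i w))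
    change V i (U i (Rz x x' y z t (V i (U i w)))) = V i 0 at h7
    have h8 : ∀ w, V i (U i w) = P i w := fun w => LinearMap.congr_fun (hVU i) w
    rw [h8, h8, map_zero] at h7
    exact h7
  calc Rz x x' y z t = (∑ i, P i) * Rz x x' y z t := by rw [h4, one_mul]
    _ = 0 := by
      rw [Finset.sum_mul]
      exact Finset.sum_eq_zero fun i _ => h0 i

theorem bk_mid {R : Type} [Ring R] {p q r : R} (hq : q * q = 1) (h1 : p * q = -(q * p))
    (h2 : q * r = -(r * q)) (h3 : p * r = -(r * p)) : bk (p * q) (q * r) = p * r + p * r := by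
  unfold bk
  have e1 : p * q * (q * r) = p * r := by
    calc p * q * (q * r) = p * (q * q) * r := by simp only [mul_assoc]
      _ = p * r := by rw [hq, mul_one]
  have e2 : q * r * (p * q) = -(p * r) := by
    calc q * r * (p * q) = -(r * q) * (p * q) := by rw [h2]
      _ = -(r * (q * p) * q) := by simp only [mul_assoc, neg_mul]
      _ = -(r * -(p * q) * q) := by rw [h1, neg_neg]
      _ = r * p * (q * q) := by simp only [mul_assoc, neg_mul, mul_neg, neg_neg]
      _ = r * p := by rw [hq, mul_one]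
      _ = -(p * r) := by rw [h3, neg_neg]
  rw [e1, e2, sub_neg_eq_add]

theorem bk_far {R : Type} [Ring R] {p q r s : R} (h1 : p * r = -(r * p)) (h2 : p * s = -(s * p))
    (h3 : q * r = -(r * q)) (h4 : q * s = -(s * q)) : bk (p * q) (r * s) = 0 := by
  unfold bk
  rw [sub_eq_zero]
  calc p * q * (r * s) = p * (q * r) * s := by simp only [mul_assoc]
    _ = -(p * r * (q * s)) := by rw [h3]; simp only [mul_assoc, neg_mul, mul_neg]
    _ = -(-(r * p) * -(s * q)) := by rw [h1, h4]
    _ = -(r * (p * s) * q) := by simp only [mul_assoc, neg_mul, mul_neg, neg_neg]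
    _ = r * s * (p * q) := by rw [h2]; simp only [mul_assoc, neg_mul, mul_neg, neg_neg]

/-- The identity does not hold for the orthogonal Lie algebras. -/
theorem Rz_ne {R : Type} [Ring R] [Algebra ℂ R] [Nontrivial R] {e : Fin 5 → R}
    (h1 : ∀ i, e i * e i = 1) (h2 : ∀ i j, i ≠ j → e i * e j = -(e j * e i)) :
    Rz (e 3 * e 4) (e 3 * e 4) (e 0 * e 1) (e 1 * e 2) (e 2 * e 3) ≠ 0 := by
  have b1 : bk (e 0 * e 1) (e 1 * e 2) = (2 : ℂ) • (e 0 * e 2) := by
    rw [bk_mid (h1 1) (h2 0 1 (by decide)) (h2 1 2 (by decide)) (h2 0 2 (by decide)), two_smul]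
  have b2 : bk (e 2 * e 3) (e 3 * e 4) = (2 : ℂ) • (e 2 * e 4) := by
    rw [bk_mid (h1 3) (h2 2 3 (by decide)) (h2 3 4 (by decide)) (h2 2 4 (by decide)), two_smul]
  have b3 : bk (e 0 * e 2) (e 2 * e 4) = (2 : ℂ) • (e 0 * e 4) := by
    rw [bk_mid (h1 2) (h2 0 2 (by decide)) (h2 2 4 (by decide)) (h2 0 4 (by decide)), two_smul]
  have b4 : bk (e 0 * e 4) (e 3 * e 4) = (-2 : ℂ) • (e 0 * e 3) := by
    have e1 : e 3 * e 4 = (-1 : ℂ) • (e 4 * e 3) := by
      rw [h2 3 4 (by decide), neg_one_smul]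
    rw [e1, bk_smul_right, bk_mid (h1 4) (h2 0 4 (by decide)) (h2 4 3 (by decide))
      (h2 0 3 (by decide)), ← two_smul ℂ, smul_smul]
    norm_num
  have b5 : bk (e 0 * e 1) (e 3 * e 4) = 0 :=
    bk_far (h2 0 3 (by decide)) (h2 0 4 (by decide)) (h2 1 3 (by decide)) (h2 1 4 (by decide))
  have b6 : bk (e 1 * e 2) (e 3 * e 4) = 0 :=
    bk_far (h2 1 3 (by decide)) (h2 1 4 (by decide)) (h2 2 3 (by decide)) (h2 2 4 (by decide))
  unfold Rz
  rw [b1, b2, b5, b6, bk_zero_left, bk_zero_left, bk_smul_left, bk_smul_right, b3, smul_smul,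
    smul_smul, bk_smul_left, b4, smul_smul, add_zero, add_zero, ← add_smul]
  intro h0
  have h3 : e 0 * e 3 = 0 := (smul_eq_zero.1 h0).resolve_left (by norm_num)
  apply one_ne_zero (α := R)
  calc (1 : R) = e 0 * (e 3 * e 3) * e 0 := by rw [h1, mul_one, h1]
    _ = (e 0 * e 3) * (e 3 * e 0) := by simp only [mul_assoc]
    _ = 0 := by rw [h3, zero_mul]

/-- **Lie algebras of spin type are not quotients of Lie algebras which satisfy the identity.** -/
theorem noQuot {g g' : ℕ} {A₀ : AbVar g'} {A : AbVar g} {N k : ℕ}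
    {E : Fin N → Matrix (Fin (2 * g)) (Fin (2 * g)) ℂ} {c : Fin N → Fin k} (h : SpT A E c)
    (ne : der A.NA ≠ ⊥) (h₀ : RazOn (cx A₀.NA : Set (Module.End ℂ (ℂ ⊗[ℚ] A₀.H1)))) :
    ¬ ∃ ψ : Module.End ℚ A₀.H1 →ₗ[ℚ] Module.End ℚ A.H1,
      (∀ x ∈ der A₀.NA, ∀ y ∈ der A₀.NA, ψ (x * y - y * x) = ψ x * ψ y - ψ y * ψ x) ∧
      (∀ x ∈ der A₀.NA, ψ x ∈ der A.NA) ∧ ∀ y ∈ der A.NA, ∃ x ∈ der A₀.NA, ψ x = y := by
  rintro ⟨ψ, hψ, -, hsur⟩
  have hF := Pool.Agent.R917.DT.full_NA (A := A₀)
  have hcl : ∀ x ∈ (der A₀.NA : Set (Module.End ℚ A₀.H1)), ∀ y ∈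
      (der A₀.NA : Set (Module.End ℚ A₀.H1)), bk x y ∈ (der A₀.NA : Set (Module.End ℚ A₀.H1)) :=
    fun x hx y hy => Submodule.subset_span ⟨x, hF.der_le hx, y, hF.der_le hy, rfl⟩
  have hall : ∀ x ∈ (Set.univ : Set (Module.End ℚ A₀.H1)), ∀ y ∈
      (Set.univ : Set (Module.End ℚ A₀.H1)), bk x y ∈ (Set.univ : Set (Module.End ℚ A₀.H1)) :=
    fun _ _ _ _ => Set.mem_univ _
  have hall' : ∀ x ∈ (Set.univ : Set (Module.End ℚ A.H1)), ∀ y ∈
      (Set.univ : Set (Module.End ℚ A.H1)), bk x y ∈ (Set.univ : Set (Module.End ℚ A.H1)) :=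
    fun _ _ _ _ => Set.mem_univ _
  -- the identity for the rational Lie algebra
  have r1 : RazOn (der A₀.NA : Set (Module.End ℚ A₀.H1)) := by
    intro x hx x' hx' y hy z hz t ht
    refine bc_zero ?_
    have e1 := map_Rz (χ := fun X : Module.End ℚ A₀.H1 => X.baseChange ℂ)
      (fun a b => LinearMap.baseChange_add a b) hall
      (fun x _ y _ => by
        change (x * y - y * x).baseChange ℂ = _
        rw [bc_br]
        rfl) (Set.mem_univ x) (Set.mem_univ x') (Set.mem_univ y) (Set.mem_univ z)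
        (Set.mem_univ t)
    refine e1.trans ?_
    exact h₀ _ (bc_mem (hF.der_le hx)) _ (bc_mem (hF.der_le hx')) _ (bc_mem (hF.der_le hy)) _
      (bc_mem (hF.der_le hz)) _ (bc_mem (hF.der_le ht))
  have r2 : RazOn (A.NA : Set (Module.End ℚ A.H1)) := by
    rw [← h.der_eq]
    intro x hx x' hx' y hy z hz t ht
    obtain ⟨a, ha, rfl⟩ := hsur x hx
    obtain ⟨a', ha', rfl⟩ := hsur x' hx'
    obtain ⟨b, hb, rfl⟩ := hsur y hy
    obtain ⟨d, hd, rfl⟩ := hsur z hz
    obtain ⟨e, he, rfl⟩ := hsur t ht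
    rw [← map_Rz (fun a b => map_add ψ a b) hcl (fun x hx y hy => hψ x hx y hy) ha ha' hb hd he,
      r1 a ha a' ha' b hb d hd e he, map_zero]
  have r3 : RazOn (cx A.NA : Set (Module.End ℂ (ℂ ⊗[ℚ] A.H1))) := by
    unfold Pool.Agent.Y102.cx
    refine RazOn.span ?_
    rintro _ ⟨x, hx, rfl⟩ _ ⟨x', hx', rfl⟩ _ ⟨y, hy, rfl⟩ _ ⟨z, hz, rfl⟩ _ ⟨t, ht, rfl⟩
    have e1 := map_Rz (χ := fun X : Module.End ℚ A.H1 => X.baseChange ℂ)
      (fun a b => LinearMap.baseChange_add a b) hall'
      (fun x _ y _ => by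
        change (x * y - y * x).baseChange ℂ = _
        rw [bc_br]
        rfl) (Set.mem_univ x) (Set.mem_univ x') (Set.mem_univ y) (Set.mem_univ z)
        (Set.mem_univ t)
    refine e1.symm.trans ?_
    change (Rz x x' y z t).baseChange ℂ = 0
    rw [r2 x hx x' hx' y hy z hz t ht, LinearMap.baseChange_zero]
  obtain ⟨hg, hN⟩ := h.pos ne
  have hnt : Nontrivial (ℂ ⊗[ℚ] A.H1) := by
    have : Nonempty (Fin (2 * g)) := ⟨⟨0, by omega⟩⟩
    infer_instance
  obtain ⟨i₀⟩ : Nonempty (Fin N) := ⟨⟨0, hN⟩⟩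
  let s : Finset (Fin N) := Finset.univ.filter fun j => c j = c i₀
  have hs : 6 ≤ s.card := h.col i₀
  let a : Fin 5 → Fin N := fun j => s.orderEmbOfFin rfl ⟨j, by omega⟩
  have ha : ∀ j, c (a j) = c i₀ := fun j =>
    (Finset.mem_filter.1 (s.orderEmbOfFin_mem rfl _)).2
  have hinj : ∀ i j, i ≠ j → a i ≠ a j := by
    intro i j hij h0
    apply hij
    have h1 := (s.orderEmbOfFin rfl).injective h0
    apply Fin.ext
    simpa using h1
  have hce := h.ceE
  refine Rz_ne (e := fun j => matE (2 * g) (E (a j))) (fun j => hce.sq (a j))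
    (fun i j hij => hce.anti (a i) (a j) (hinj i j hij)) ?_
  have hm : ∀ i j, i ≠ j → matE (2 * g) (E (a i)) * matE (2 * g) (E (a j)) ∈ cx A.NA := by
    intro i j hij
    rw [h.cx_eq]
    exact Submodule.subset_span ⟨a i, a j, hinj i j hij, (ha i).trans (ha j).symm, rfl⟩
  exact r3 _ (hm 3 4 (by decide)) _ (hm 3 4 (by decide)) _ (hm 0 1 (by decide)) _
    (hm 1 2 (by decide)) _ (hm 2 3 (by decide))

end Pool.Agent.T6.H14.GL
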