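import Mathlib

set_option autoImplicit false
set_option linter.unusedSectionVars false

/-!
# Isomorphisms of orthogonal Lie algebras: skew symmetric matrices
-/

open Module Matrix

noncomputable section

namespace Pool.Agent.T6.H14.GL

/-- square matrices -/
abbrev MM (r : ℕ) : Type := Matrix (Fin r) (Fin r) ℂ

/-- the orthogonal Lie algebra -/
def so (r : ℕ) : Submodule ℂ (MM r) where
  carrier := {X | Xᵀ = -X}
  zero_mem' := by
    change (0 : MM r)ᵀ = -0
    rw [Matrix.transpose_zero, neg_zero]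
  add_mem' := fun {X Y} hX hY => by
    change (X + Y)ᵀ = -(X + Y)
    rw [Matrix.transpose_add, hX, hY, neg_add]
  smul_mem' := fun c X hX => by
    change (c • X)ᵀ = -(c • X)
    rw [Matrix.transpose_smul, hX, smul_neg]

variable {r : ℕ}

theorem mem_so {X : MM r} : X ∈ so r ↔ Xᵀ = -X := Iff.rfl

theorem so_entry {X : MM r} (h : X ∈ so r) (i j : Fin r) : X i j = -X j i :=
  congrFun (congrFun (mem_so.1 h) j) i

theorem so_br {X Y : MM r} (hX : X ∈ so r) (hY : Y ∈ so r) : X * Y - Y * X ∈ so r := by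
  rw [mem_so, Matrix.transpose_sub, Matrix.transpose_mul, Matrix.transpose_mul, mem_so.1 hX,
    mem_so.1 hY]
  simp

theorem so_trace {X : MM r} (h : X ∈ so r) : X.trace = 0 := by
  have h1 := congrArg Matrix.trace (mem_so.1 h)
  rw [Matrix.trace_transpose, Matrix.trace_neg] at h1
  have h2 : (2 : ℂ) * X.trace = 0 := by linear_combination h1
  exact (mul_eq_zero.1 h2).resolve_left two_ne_zero

/-- the skew symmetric matrices of the basis -/
def LL (a b : Fin r) : MM r := Matrix.single a b 1 - Matrix.single b a 1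

theorem LL_mem (a b : Fin r) : LL a b ∈ so r := by
  rw [mem_so]
  unfold LL
  rw [Matrix.transpose_sub, Matrix.transpose_single, Matrix.transpose_single, neg_sub]

/-! ### Traces -/

theorem trace_MM (T : MM r →ₗ[ℂ] MM r) :
    LinearMap.trace ℂ (MM r) T = ∑ i, ∑ j, T (Matrix.single i j 1) i j := by
  rw [LinearMap.trace_eq_matrix_trace ℂ (Matrix.stdBasis ℂ (Fin r) (Fin r)), Matrix.trace,
    Fintype.sum_prod_type]
  refine Finset.sum_congr rfl fun i _ => Finset.sum_congr rfl fun j _ => ?_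
  rw [Matrix.diag_apply, LinearMap.toMatrix_apply, Matrix.stdBasis_eq_single]
  rfl

/-- the projection to the skew symmetric matrices -/
def pj (r : ℕ) : MM r →ₗ[ℂ] so r where
  toFun X := ⟨(2⁻¹ : ℂ) • (X - Xᵀ), by
    rw [mem_so, Matrix.transpose_smul, Matrix.transpose_sub, Matrix.transpose_transpose,
      ← smul_neg, neg_sub]⟩
  map_add' X Y := Subtype.ext (by
    change (2⁻¹ : ℂ) • (X + Y - (X + Y)ᵀ) = (2⁻¹ : ℂ) • (X - Xᵀ) + (2⁻¹ : ℂ) • (Y - Yᵀ)
    rw [Matrix.transpose_add, ← smul_add]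
    congr 1
    abel)
  map_smul' c X := Subtype.ext (by
    change (2⁻¹ : ℂ) • (c • X - (c • X)ᵀ) = c • ((2⁻¹ : ℂ) • (X - Xᵀ))
    rw [Matrix.transpose_smul, ← smul_sub, smul_comm])

theorem pj_so (X : so r) : pj r (X : MM r) = X := by
  apply Subtype.ext
  change (2⁻¹ : ℂ) • ((X : MM r) - (X : MM r)ᵀ) = X
  rw [mem_so.1 X.2, sub_neg_eq_add, ← two_smul ℂ, smul_smul, inv_mul_cancel₀ two_ne_zero, one_smul]

theorem trace_so (T : MM r →ₗ[ℂ] MM r) (h : ∀ X ∈ so r, T X ∈ so r) :
    2 * LinearMap.trace ℂ (so r) (T.restrict h) =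
      (∑ i, ∑ j, T (Matrix.single i j 1) i j) - ∑ i, ∑ j, T (Matrix.single j i 1) i j := by
  have h1 : T.restrict h = pj r ∘ₗ (T ∘ₗ (so r).subtype) := by
    refine LinearMap.ext fun X => ?_
    change _ = pj r (T X)
    have h2 := pj_so (⟨T X, h X X.2⟩ : so r)
    exact h2.symm
  rw [h1, LinearMap.trace_comp_comm', trace_MM, ← Finset.sum_sub_distrib, Finset.mul_sum]
  refine Finset.sum_congr rfl fun i _ => ?_
  rw [← Finset.sum_sub_distrib, Finset.mul_sum]
  refine Finset.sum_congr rfl fun j _ => ?_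
  change 2 * T ((2⁻¹ : ℂ) • (Matrix.single i j 1 - (Matrix.single i j 1)ᵀ)) i j = _
  rw [map_smul, map_sub, Matrix.transpose_single, Matrix.smul_apply, Matrix.sub_apply,
    smul_eq_mul, ← mul_assoc, mul_inv_cancel₀ two_ne_zero, one_mul]

/-- the dimension -/
theorem two_finrank_so : 2 * (finrank ℂ (so r) : ℂ) = r * r - r := by
  have h1 := trace_so (r := r) LinearMap.id fun X hX => hX
  have h2 : (LinearMap.id : MM r →ₗ[ℂ] MM r).restrict (fun X (hX : X ∈ so r) => hX) =
      LinearMap.id := LinearMap.ext fun X => rfl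
  rw [h2, LinearMap.trace_id] at h1
  rw [h1]
  congr 1
  · have h3 : ∀ i j : Fin r, (LinearMap.id : MM r →ₗ[ℂ] MM r) (Matrix.single i j 1) i j = 1 := by
      intro i j
      rw [LinearMap.id_apply, Matrix.single_apply_same]
    simp only [h3, Finset.sum_const, Finset.card_univ, Fintype.card_fin, nsmul_eq_mul, mul_one]
  · have h3 : ∀ i j : Fin r, (LinearMap.id : MM r →ₗ[ℂ] MM r) (Matrix.single j i 1) i j =
        if i = j then 1 else 0 := by
      intro i j
      rw [LinearMap.id_apply, Matrix.single_apply]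
      by_cases h : i = j
      · rw [if_pos h, if_pos ⟨h.symm, h⟩]
      · rw [if_neg h, if_neg fun h' => h h'.2]
    simp only [h3, Finset.sum_ite_eq, Finset.mem_univ, if_true, Finset.sum_const,
      Finset.card_univ, Fintype.card_fin, nsmul_eq_mul, mul_one]

/-- multiplication on both sides -/
def lr (A B : MM r) : MM r →ₗ[ℂ] MM r where
  toFun X := A * X * B
  map_add' X Y := by rw [Matrix.mul_add, Matrix.add_mul]
  map_smul' c X := by rw [Matrix.mul_smul, Matrix.smul_mul, RingHom.id_apply]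

theorem lr_apply (A B X : MM r) : lr A B X = A * X * B := rfl

theorem lr_single (A B : MM r) (a b i j : Fin r) :
    lr A B (Matrix.single a b 1) i j = A i a * B b j := by
  rw [lr_apply, Matrix.mul_apply, Finset.sum_eq_single b]
  · rw [Matrix.mul_apply, Finset.sum_eq_single a]
    · rw [Matrix.single_apply_same, mul_one]
    · intro c _ hc
      rw [Matrix.single_apply_of_ne _ _ _ _ _ fun h => hc h.1.symm, mul_zero]
    · intro h
      exact absurd (Finset.mem_univ _) h
  · intro c _ hc
    have h1 : (A * Matrix.single a b (1 : ℂ) : MM r) i c = 0 := by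
      rw [Matrix.mul_apply]
      refine Finset.sum_eq_zero fun d _ => ?_
      rw [Matrix.single_apply_of_ne _ _ _ _ _ fun h => hc h.2.symm, mul_zero]
    rw [h1, zero_mul]
  · intro h
    exact absurd (Finset.mem_univ _) h

/-- the square of the adjoint action -/
def ad2 (Y : MM r) : MM r →ₗ[ℂ] MM r := lr (Y * Y) 1 - (2 : ℂ) • lr Y Y + lr 1 (Y * Y)

theorem ad2_apply (Y X : MM r) :
    ad2 Y X = Y * (Y * X - X * Y) - (Y * X - X * Y) * Y := by
  unfold ad2
  rw [LinearMap.add_apply, LinearMap.sub_apply, LinearMap.smul_apply, lr_apply, lr_apply, lr_apply,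
    Matrix.mul_one, Matrix.one_mul, two_smul]
  simp only [Matrix.mul_sub, Matrix.sub_mul, Matrix.mul_assoc]
  abel

theorem ad2_mem {Y : MM r} (hY : Y ∈ so r) : ∀ X ∈ so r, ad2 Y X ∈ so r := by
  intro X hX
  rw [ad2_apply]
  exact so_br hY (so_br hY hX)

theorem trace_ad2 {Y : MM r} (hY : Y ∈ so r) :
    LinearMap.trace ℂ (so r) ((ad2 Y).restrict (ad2_mem hY)) = (r - 2) * (Y * Y).trace := by
  have h1 := trace_so (ad2 Y) (ad2_mem hY)
  have e1 : ∑ i, ∑ j, ad2 Y (Matrix.single i j 1) i j = 2 * r * (Y * Y).trace := by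
    have h2 : ∀ i j : Fin r, ad2 Y (Matrix.single i j 1) i j =
        (Y * Y) i i - 2 * (Y i i * Y j j) + (Y * Y) j j := by
      intro i j
      unfold ad2
      rw [LinearMap.add_apply, LinearMap.sub_apply, LinearMap.smul_apply, Matrix.add_apply,
        Matrix.sub_apply, Matrix.smul_apply, lr_single, lr_single, lr_single, Matrix.one_apply_eq,
        Matrix.one_apply_eq, mul_one, one_mul, smul_eq_mul]
    simp only [h2, Finset.sum_add_distrib, Finset.sum_sub_distrib, ← Finset.mul_sum,
      ← Finset.sum_mul, Finset.sum_const, Finset.card_univ, Fintype.card_fin, nsmul_eq_mul]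
    have h3 : ∑ j, Y j j = 0 := so_trace hY
    have h4 : ∑ j, (Y * Y) j j = (Y * Y).trace := rfl
    rw [h3, h4]
    ring
  have e2 : ∑ i, ∑ j, ad2 Y (Matrix.single j i 1) i j = 4 * (Y * Y).trace := by
    have h2 : ∀ i j : Fin r, ad2 Y (Matrix.single j i 1) i j =
        (if i = j then (Y * Y) i j else 0) + 2 * (Y i j * Y j i) +
          (if i = j then (Y * Y) i j else 0) := by
      intro i j
      unfold ad2
      rw [LinearMap.add_apply, LinearMap.sub_apply, LinearMap.smul_apply, Matrix.add_apply,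
        Matrix.sub_apply, Matrix.smul_apply, lr_single, lr_single, lr_single, Matrix.one_apply,
        smul_eq_mul]
      have h3 := so_entry hY i j
      by_cases h : i = j
      · subst h
        rw [if_pos rfl, if_pos rfl]
        linear_combination (-2 * Y i i) * h3
      · rw [if_neg h, if_neg h]
        linear_combination (-2 * Y i j) * h3
    simp only [h2, Finset.sum_add_distrib, Finset.sum_ite_eq, Finset.mem_univ, if_true,
      ← Finset.mul_sum]
    have h4 : ∑ j, (Y * Y) j j = (Y * Y).trace := rfl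
    have h5 : ∑ i, ∑ j, Y i j * Y j i = (Y * Y).trace := rfl
    rw [h4, h5]
    ring
  rw [e1, e2] at h1
  linear_combination h1 / 2

/-! ### The relation for the elements of rank two -/

theorem contract (A B : MM r) (a c : Fin r) :
    ∑ b, (A * LL a b * B) c b = A c a * B.trace - (A * Bᵀ) c a := by
  have h1 : ∀ b, (A * LL a b * B) c b = A c a * B b b - A c b * B a b := by
    intro b
    have h2 : A * LL a b * B = lr A B (Matrix.single a b 1) - lr A B (Matrix.single b a 1) := by
      rw [← map_sub]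
      rfl
    rw [h2, Matrix.sub_apply, lr_single, lr_single]
  rw [Finset.sum_congr rfl fun b _ => h1 b, Finset.sum_sub_distrib, ← Finset.mul_sum]
  rfl

/-- the relation -/
def Rel3 (N : ℂ) (Y : MM r) : Prop := ∀ X ∈ so r,
  Y * Y * Y * X - (3 : ℂ) • (Y * Y * X * Y) + (3 : ℂ) • (Y * X * (Y * Y)) - X * (Y * Y * Y) +
    N • (Y * X - X * Y) = 0

theorem cube_mem {Y : MM r} (hY : Y ∈ so r) : Y * Y * Y ∈ so r := by
  rw [mem_so, Matrix.transpose_mul, Matrix.transpose_mul, mem_so.1 hY]
  simp [Matrix.mul_assoc]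

theorem sq_symm {Y : MM r} (hY : Y ∈ so r) : (Y * Y)ᵀ = Y * Y := by
  rw [Matrix.transpose_mul, mem_so.1 hY]
  simp

theorem cube_eq {Y : MM r} (hY : Y ∈ so r) {N : ℂ} (h : Rel3 N Y)
    (ht : (Y * Y).trace = -2 * N) (hr : r ≠ 8) : Y * Y * Y = -(N • Y) := by
  have hr' : (r : ℂ) - 8 ≠ 0 := by
    rw [sub_ne_zero]
    exact_mod_cast hr
  ext c a
  have h1 : ∑ b, (Y * Y * Y * LL a b - (3 : ℂ) • (Y * Y * LL a b * Y) +
      (3 : ℂ) • (Y * LL a b * (Y * Y)) - LL a b * (Y * Y * Y) +
        N • (Y * LL a b - LL a b * Y)) c b = 0 :=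
    Finset.sum_eq_zero fun b _ => by rw [h _ (LL_mem a b)]; rfl
  simp only [Matrix.add_apply, Matrix.sub_apply, Matrix.smul_apply, smul_eq_mul,
    Finset.sum_add_distrib, Finset.sum_sub_distrib, ← Finset.mul_sum] at h1
  have e1 := contract (Y * Y * Y) 1 a c
  have e2 := contract (Y * Y) Y a c
  have e3 := contract Y (Y * Y) a c
  have e4 := contract 1 (Y * Y * Y) a c
  have e5 := contract Y 1 a c
  have e6 := contract 1 Y a c
  simp only [Matrix.mul_one, Matrix.one_mul, Matrix.transpose_one, Matrix.trace_one,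
    Fintype.card_fin, so_trace hY, so_trace (cube_mem hY), mem_so.1 hY, sq_symm hY,
    mem_so.1 (cube_mem hY), Matrix.neg_apply, Matrix.mul_neg, ht] at e1 e2 e3 e4 e5 e6
  rw [← Matrix.mul_assoc] at e3
  rw [e1, e2, e3, e4, e5, e6] at h1
  rw [Matrix.neg_apply, Matrix.smul_apply, smul_eq_mul]
  refine mul_left_cancel₀ hr' ?_
  linear_combination h1

theorem plucker {Y : MM r} (hY : Y ∈ so r) {N : ℂ} (hN : N ≠ 0) (h : Rel3 N Y)
    (hc : Y * Y * Y = -(N • Y)) (a b c d : Fin r) :
    Y a b * Y c d - Y a c * Y b d + Y a d * Y b c = 0 := by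
  have h1 : ∀ X ∈ so r, Y * Y * X * (Y * Y) = -(N • (Y * X * Y)) := by
    intro X hX
    have h2 := h X hX
    rw [hc] at h2
    have h3 : Y * X * (Y * Y) = Y * Y * X * Y := by
      have h4 : (3 : ℂ) • (Y * X * (Y * Y) - Y * Y * X * Y) = 0 := by
        rw [← h2]
        simp only [Matrix.neg_mul, Matrix.smul_mul, Matrix.mul_neg, Matrix.mul_smul, smul_sub]
        abel
      have h5 := (smul_eq_zero.1 h4).resolve_left (by norm_num)
      exact sub_eq_zero.1 h5
    calc Y * Y * X * (Y * Y) = Y * (Y * X * (Y * Y)) := by simp only [Matrix.mul_assoc]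
      _ = Y * Y * Y * X * Y := by rw [h3]; simp only [Matrix.mul_assoc]
      _ = _ := by rw [hc]; simp only [Matrix.neg_mul, Matrix.smul_mul]
  have h2 : ∀ a b c d : Fin r, (Y * Y) c a * (Y * Y) b d - (Y * Y) c b * (Y * Y) a d =
      -(N * (Y c a * Y b d - Y c b * Y a d)) := by
    intro a b c d
    have h3 := congrFun (congrFun (h1 (LL a b) (LL_mem a b)) c) d
    have h4 : ∀ A B : MM r, (A * LL a b * B) c d = A c a * B b d - A c b * B a d := by
      intro A B
      have h2 : A * LL a b * B = lr A B (Matrix.single a b 1) - lr A B (Matrix.single b a 1) := by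
        rw [← map_sub]
        rfl
      rw [h2, Matrix.sub_apply, lr_single, lr_single]
    rw [h4, Matrix.neg_apply, Matrix.smul_apply, h4, smul_eq_mul] at h3
    exact h3
  have hq : ∀ i j, (Y * Y) i j = (Y * Y) j i := fun i j =>
    congrFun (congrFun (sq_symm hY) j) i
  have f1 := h2 a b c d
  have f2 := h2 a c b d
  have f3 := h2 a d b c
  rw [hq c a, hq c b, so_entry hY c a, so_entry hY c b] at f1
  rw [hq b a, so_entry hY b a] at f2
  rw [hq b a, hq d c, so_entry hY b a, so_entry hY d c] at f3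
  refine mul_left_cancel₀ (mul_ne_zero two_ne_zero hN) ?_
  linear_combination f1 - f2 + f3

end Pool.Agent.T6.H14.GL
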